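import Pool.Agent.V7.Defs
import Pool.Agent.V7.ST.Ms
import Pool.Agent.H54.V7.Size

/-!
# V7: the dimension is at least the virtual dimension

The size of a kind is at most its weight (`Pool.Agent.H54.V7.Size`), and the number of the exponents
which meet `j` blocks of size `c` is `bb c (2 M - 1) j n`.
-/

set_option autoImplicit false
set_option linter.unusedSectionVars false

namespace Pool.Agent.V7

open Finset MvPolynomial Pool.Agent.H51.TB Pool.Agent.H54.V7
open Pool.Agent.V7.ST (gM gM_zero gM_le_cons)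

theorem bb_eq_bbc (c s : ℕ) : ∀ k n, bb c s k n = bbc c s k n
  | 0, n => Nat.multichoose_eq n s
  | k + 1, n => by
    show bb c s k n - bb c s k (n - c) = bbc c s k n - bbc c s k (n - c)
    rw [bb_eq_bbc c s k n, bb_eq_bbc c s k (n - c)]

variable {ν : Type} [Fintype ν] [DecidableEq ν]

/-- The variables of the block `i`. -/
abbrev blo (β : ν → ℕ) (i : ℕ) : Finset ν := univ.filter fun s => β s = i

theorem blo_disjoint (β : ν → ℕ) {i k : ℕ} (h : i ≠ k) : Disjoint (blo β i) (blo β k) := by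
  rw [disjoint_left]
  intro s hs hs'
  rw [mem_filter] at hs hs'
  exact h (hs.2.symm.trans hs'.2)

theorem card_Ex {c j : ℕ} {β : ν → ℕ} (hβ : ∀ i < j, (blo β i).card = c) (d : ℕ) :
    (Ex β d j).card = bb c d j (Fintype.card ν) := by
  have h1 : Ex β d j = mset (blo β) univ (range j) d := by
    ext a
    rw [mem_Ex, mem_mset]
    constructor
    · rintro ⟨h1, h2⟩
      refine ⟨⟨h1, fun x _ => mem_univ x⟩, fun i hi h3 => ?_⟩
      obtain ⟨s, hs, hs'⟩ := h2 i (mem_range.1 hi)
      exact hs' (h3 s (mem_filter.2 ⟨mem_univ s, hs⟩))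
    · rintro ⟨⟨h1, -⟩, h2⟩
      refine ⟨h1, fun i hi => ?_⟩
      by_contra h3
      push Not at h3
      exact h2 i (mem_range.2 hi) fun x hx => h3 x (mem_filter.1 hx).2
  rw [h1, card_mset (blo β) c d (range j) univ
    (fun i hi => ⟨subset_univ _, hβ i (mem_range.1 hi)⟩)
    (fun i _ k _ hik => blo_disjoint β hik), card_range, card_univ, bb_eq_bbc]

theorem Ex_miss {j d : ℕ} {β : ν → ℕ} {i : ℕ} (hi : i < j) (e : {a // a ∈ Ex β d j}) :
    ¬ ∀ x ∈ blo β i, e.1 x = 0 := by
  intro h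
  obtain ⟨s, hs, hs'⟩ := (mem_Ex.1 e.2).2 i hi
  exact hs' (h s (mem_filter.2 ⟨mem_univ s, hs⟩))

theorem msk_blo (β : ν → ℕ) {I : Finset ℕ} (q : ν → ℂ) {i : ℕ} (hi : i ∈ I) :
    ∀ x ∈ blo β i, msk β I q x = 0 := by
  intro x hx
  unfold msk
  rw [if_pos]
  rw [(mem_filter.1 hx).2]
  exact hi

/-- The number of conditions of a kind. -/
theorem size_le_wt {M c j : ℕ} (hM : 1 ≤ M) {β : ν → ℕ} (hβ : ∀ i < j, (blo β i).card = c)
    {s₀ : ν} (hs₀ : j ≤ β s₀) {k : Kd} (hk : k.Ok M j) :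
    (LS M β j).size k ≤ wt M c (Fintype.card ν) k := by
  have hE : ∀ e : Ex β (2 * M - 1) j, ∑ s, e.1 s = 2 * M - 1 := fun e =>
    (mem_Ex.1 e.2).1
  have hu := gd_unit (LS M β j) k
  have key : ∃ q : Unit → ν ⊕ ν → ℂ, q () (Sum.inl s₀) ≠ 0 ∧
      Module.finrank ℂ ((LS M β j).V (fun _ : Unit => k) q) =
        (LS M β j).gd fun _ : Unit => k := by
    have h1 : Gn Unit (ν ⊕ ν) fun q => q () (Sum.inl s₀) ≠ 0 :=
      ⟨X ((), Sum.inl s₀), X_ne_zero _, fun p hp => by rwa [eval_X] at hp⟩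
    exact (h1.and (gn_gd (LS M β j) fun _ : Unit => k)).exists
  obtain ⟨q, hq0, hq⟩ := key
  suffices h : Fintype.card (Ex β (2 * M - 1) j) ≤
      Module.finrank ℂ ((LS M β j).V (fun _ : Unit => k) q) + wt M c (Fintype.card ν) k by
    omega
  have htop : Module.finrank ℂ (⊤ : Submodule ℂ (Ex β (2 * M - 1) j → ℂ)) =
      Fintype.card (Ex β (2 * M - 1) j) := by
    rw [finrank_top, Module.finrank_fintype_fun_eq_card]
  rw [← htop]
  rcases k with ⟨μ, I⟩ | ⟨i, I⟩
  · obtain ⟨h1, h2, h3⟩ := hk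
    have h4 := fat_card (fun e : Ex β (2 * M - 1) j => e.1) (2 * M - 1) μ c h1
      (by omega) hE (blo β) I (fun k hk e => Ex_miss (mem_range.1 (h3 hk)) e)
      (fun k hk => hβ k (mem_range.1 (h3 hk))) (fun k _ l _ hkl => blo_disjoint β hkl)
      (msk β I fun s => q () (Sum.inl s)) (fun k hk => msk_blo β _ hk) ⊤
      ((LS M β j).V (fun _ : Unit => Kd.ord μ I) q) (fun f _ hf => by
        rw [mem_LSA]
        exact fun _ => hf)
    rw [← bb_eq_bbc] at h4
    exact h4
  · obtain ⟨h1, h2⟩ := hk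
    have hiI : i ∉ I := fun h => by
      have := mem_Ico.1 (h2 h)
      omega
    have hlt : ∀ k ∈ insert i I, k < j := fun k hk => by
      rcases mem_insert.1 hk with h | h
      · rw [h]
        exact h1
      · exact (mem_Ico.1 (h2 h)).2
    have hs₀' : ∀ k ∈ insert i I, s₀ ∉ blo β k := fun k hk h => by
      have h3 := (mem_filter.1 h).2
      have h4 := hlt k hk
      omega
    have hne : β s₀ ∉ insert i I := fun h => by
      have h4 := hlt _ h
      omega
    have h4 := sw_card (fun e : Ex β (2 * M - 1) j => e.1) (2 * M - 1) M (2 * M) c hM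
      (by omega) (by omega) hE (blo β) I i hiI (fun k hk e => Ex_miss (hlt k hk) e)
      (fun k hk => hβ k (hlt k hk)) (fun k _ l _ hkl => blo_disjoint β hkl)
      (msk β (insert i I) fun s => q () (Sum.inl s)) (msk β I fun s => q () (Sum.inr s))
      (fun k hk => msk_blo β _ hk) (fun k hk => msk_blo β _ hk) s₀ hs₀'
      (by
        unfold msk
        rw [if_neg hne]
        exact hq0) ⊤
      ((LS M β j).V (fun _ : Unit => Kd.sw i I) q) (fun f _ hf hf' => by
        rw [mem_LSA]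
        exact fun _ => ⟨hf, hf'⟩)
    rw [← bb_eq_bbc] at h4
    exact h4

/-- **F1.** The dimension is at least the virtual dimension. -/
theorem vd_le_gM {M c j : ℕ} (hM : 1 ≤ M) {β : ν → ℕ} (hβ : ∀ i < j, (blo β i).card = c)
    {s₀ : ν} (hs₀ : j ≤ β s₀) (s : Multiset Kd) (hs : ∀ k ∈ s, k.Ok M j) :
    vd M c j (Fintype.card ν) s ≤ gM (LS M β j) s := by
  induction s using Multiset.induction_on with
  | empty =>
    rw [gM_zero, Fintype.card_coe, card_Ex hβ]
    unfold vd
    simp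
  | cons k s ih =>
    have h1 := ih fun k' hk' => hs k' (Multiset.mem_cons_of_mem hk')
    have h2 := gM_le_cons (LS M β j) s k
    have h3 := size_le_wt hM hβ hs₀ (hs k (Multiset.mem_cons_self k s))
    unfold vd at h1 ⊢
    rw [Multiset.map_cons, Multiset.sum_cons]
    push_cast
    push_cast at h1
    have h4 : (gM (LS M β j) s : ℤ) ≤ gM (LS M β j) (k ::ₘ s) + wt M c (Fintype.card ν) k := by
      exact_mod_cast h2.trans (Nat.add_le_add_left h3 _)
    linarith

/-! ### The canonical variables -/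

theorem card_blo_blk {c n i : ℕ} (hc : 0 < c) (h : (i + 1) * c ≤ n) :
    (blo (blk c n) i).card = c := by
  have h1 : (blo (blk c n) i).card = (Ico (i * c) ((i + 1) * c)).card := by
    refine card_bij (fun s _ => s.1) ?_ ?_ ?_
    · intro s hs
      have h2 : s.1 / c = i := (mem_filter.1 hs).2
      rw [mem_Ico]
      constructor
      · rw [← h2]
        exact Nat.div_mul_le_self _ _
      · rw [← h2]
        exact Nat.lt_mul_of_div_lt (Nat.lt_succ_self _) hc
    · intro s _ t _ hst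
      exact Fin.ext hst
    · intro x hx
      rw [mem_Ico] at hx
      refine ⟨⟨x, lt_of_lt_of_le hx.2 h⟩, mem_filter.2 ⟨mem_univ _, ?_⟩, rfl⟩
      exact Nat.div_eq_of_lt_le hx.1 hx.2
  rw [h1, Nat.card_Ico, add_mul, one_mul]
  omega

theorem card_Ex_blk {c n j : ℕ} (hc : 0 < c) (h : j * c ≤ n) (d : ℕ) :
    (Ex (blk c n) d j).card = bb c d j n := by
  rw [card_Ex (fun i hi => card_blo_blk hc
    ((Nat.mul_le_mul_right c (Nat.succ_le_of_lt hi)).trans h)) d, Fintype.card_fin]

theorem size_blk {M c j n : ℕ} (hM : 1 ≤ M) (hc : 0 < c) (h : j * c < n) {k : Kd}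
    (hk : k.Ok M j) : (LS M (blk c n) j).size k ≤ wt M c n k := by
  have h1 := size_le_wt (ν := Fin n) (c := c) hM (fun i hi => card_blo_blk hc
    ((Nat.mul_le_mul_right c (Nat.succ_le_of_lt hi)).trans h.le)) (s₀ := ⟨j * c, h⟩)
    (show j ≤ j * c / c by rw [Nat.mul_div_cancel _ hc]) hk
  rwa [Fintype.card_fin] at h1

/-- **F1**, canonical variables. -/
theorem vd_le_gM_blk {M c j n : ℕ} (hM : 1 ≤ M) (hc : 0 < c) (h : j * c < n) (s : Multiset Kd)
    (hs : ∀ k ∈ s, k.Ok M j) : vd M c j n s ≤ gM (LS M (blk c n) j) s := by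
  have h1 := vd_le_gM (ν := Fin n) (c := c) hM (fun i hi => card_blo_blk hc
    ((Nat.mul_le_mul_right c (Nat.succ_le_of_lt hi)).trans h.le)) (s₀ := ⟨j * c, h⟩)
    (show j ≤ j * c / c by rw [Nat.mul_div_cancel _ hc]) s hs
  rwa [Fintype.card_fin] at h1

end Pool.Agent.V7
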