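import Pool.Agent.V7.DHm
import Pool.Agent.V7.ST.TraceAbs

/-!
# V7: the trace inequality for multisets of kinds, `n` numbered variables
-/

set_option autoImplicit false
set_option linter.unusedSectionVars false
set_option linter.unusedVariables false

namespace Pool.Agent.V7

open Finset MvPolynomial Pool.Agent.H51.TB Pool.Agent.H54.V7 Pool.Agent.V7.ST
open Pool.Agent.H18.Ex (tcr)

section

variable {ν : Type} [Fintype ν] [DecidableEq ν]

/-- The trace inequality for families. -/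
theorem gd_tr (M : ℕ) (β : ν → ℕ) (j : ℕ) (A : Finset (ν → ℕ)) {κL κO : Type} [Fintype κL]
    [Fintype κO] (mL : κL → Kd) (mO : κO → Kd) :
    (LSA M β A).gd (Sum.elim mL mO) ≤ (LSA M β (A0 β j A)).gd mL +
      (LSA M β (A1 β j A)).gd (Sum.elim (fun x => (mL x).add j) mO) := by
  classical
  obtain ⟨P, hP1, hP2⟩ := ((gn_gd (LSA M β (A0 β j A)) mL).comap
    (Sum.inl : κL → κL ⊕ κO) Sum.inl_injective |>.and
    (gn_gd (LSA M β (A1 β j A)) (Sum.elim (fun x => (mL x).add j) mO))).exists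
  rw [← hP1, ← hP2]
  set Q : κL ⊕ κO → ν ⊕ ν → ℂ :=
    Sum.elim (fun i => mq β j (P (Sum.inl i))) fun i => P (Sum.inr i) with hQ
  refine (gd_le _ _ Q).trans ?_
  refine finrank_split (fun e : {a // a ∈ A0 β j A} => (⟨e.1, (mem_filter.1 e.2).1⟩ : {a // a ∈ A}))
    (fun e : {a // a ∈ A1 β j A} => (⟨e.1, (mem_filter.1 e.2).1⟩ : {a // a ∈ A})) ?_ _ _ _ ?_ ?_
  · intro e
    by_cases he : ∀ s ∈ Bj β j, e.1 s = 0
    · exact Or.inl ⟨⟨e.1, mem_filter.2 ⟨e.2, he⟩⟩, rfl⟩
    · exact Or.inr ⟨⟨e.1, mem_filter.2 ⟨e.2, he⟩⟩, rfl⟩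
  · intro f hf
    rw [mem_LSA] at hf ⊢
    intro i
    exact SatK_trace M β j A (mL i) (P (Sum.inl i)) f (hf (Sum.inl i))
  · intro f hf hf0
    have hf1 : ∀ e : {a // a ∈ A}, (∀ s ∈ Bj β j, e.1 s = 0) → f e = 0 :=
      fun e he => hf0 ⟨e.1, mem_filter.2 ⟨e.2, he⟩⟩
    rw [mem_LSA] at hf ⊢
    rintro (i | i)
    · exact SatK_resid_add M β j A (mL i) (P (Sum.inl i)) f hf1 (hf (Sum.inl i))
    · exact SatK_resid M β j A (mO i) (P (Sum.inr i)) f hf1 (hf (Sum.inr i))

end

/-- The inclusion of the variables off the block `j`. -/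
theorem sg_facts (c j n : ℕ) (hc : 1 ≤ c) (hn : (j + 1) * c ≤ n) (hcn : c ≤ n) :
    Function.Injective (sg c j n hcn) ∧
      (∀ s : Fin n, (∃ x, sg c j n hcn x = s) ↔ blk c n s ≠ j) ∧
      ∀ x, ∀ i < j, blk c n (sg c j n hcn x) = i ↔ blk c (n - c) x = i := by
  have hval := sg_val c j n hcn
  have hjc : (j + 1) * c = j * c + c := by ring
  refine ⟨?_, ?_, ?_⟩
  · intro s s' h
    have h1 := congrArg Fin.val h
    rw [hval, hval] at h1
    apply Fin.ext
    split_ifs at h1 <;> omega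
  · intro s
    have hdiv : blk c n s = j ↔ j * c ≤ s.1 ∧ s.1 < (j + 1) * c := by
      show s.1 / c = j ↔ _
      rw [Nat.div_eq_iff (by omega)]
      constructor
      · rintro ⟨h1, h2⟩
        constructor
        · exact h1
        · rw [hjc]
          omega
      · rintro ⟨h1, h2⟩
        rw [hjc] at h2
        exact ⟨h1, by omega⟩
    constructor
    · rintro ⟨x, rfl⟩ h
      have h1 := hdiv.1 h
      rw [hval] at h1
      split_ifs at h1 <;> omega
    · intro h
      rcases Nat.lt_or_ge s.1 (j * c) with h1 | h1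
      · refine ⟨⟨s.1, by omega⟩, ?_⟩
        apply Fin.ext
        rw [hval, if_pos h1]
      · have h2 : (j + 1) * c ≤ s.1 := by
          by_contra h3
          exact h (hdiv.2 ⟨h1, by omega⟩)
        have h3 := s.2
        refine ⟨⟨s.1 - c, by omega⟩, ?_⟩
        apply Fin.ext
        rw [hval, if_neg (by simp only; omega)]
        simp only
        omega
  · intro x i hi
    show (sg c j n hcn x).1 / c = i ↔ x.1 / c = i
    rw [hval]
    split_ifs with h
    · exact Iff.rfl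
    · have h1 : j ≤ x.1 / c := (Nat.le_div_iff_mul_le (by omega)).2 (by omega)
      have h2 : (x.1 + c) / c = x.1 / c + 1 := Nat.add_div_right _ (by omega)
      omega

/-- **The trace inequality** for multisets of kinds. -/
theorem gM_tr (M c l n : ℕ) (hM : 1 ≤ M) (hc : 1 ≤ c) (hn : (l + 1) * c ≤ n)
    (sL sO : Multiset Kd) (hL : ∀ k ∈ sL, k.Ok M l) :
    gM (LS M (blk c n) l) (sL + sO) ≤ gM (LS M (blk c (n - c)) l) sL +
      gM (LS M (blk c n) (l + 1)) (sL.map (Kd.add l) + sO) := by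
  classical
  have hcn : c ≤ n := by nlinarith
  obtain ⟨mL, hmL, hL0⟩ := exists_conf (LS M (blk c (n - c)) l) sL
  obtain ⟨mO, hmO, -⟩ := exists_conf (LS M (blk c n) l) sO
  obtain ⟨hinj, him, hβ⟩ := sg_facts c l n hc hn hcn
  have hLm : ∀ i, (mL i).Ok M l := by
    intro i
    refine hL _ ?_
    rw [← hmL]
    exact Multiset.mem_map_of_mem _ (mem_univ i)
  have h1 := gd_A0_le M hinj him hβ mL hLm
  have h2 := gd_tr M (blk c n) l (Ex (blk c n) (2 * M - 1) l) mL mO
  rw [A1_Ex] at h2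
  rw [gd_eq_gM _ (Sum.elim mL mO), gd_eq_gM _ (Sum.elim (fun x => (mL x).add l) mO), map_elim,
    map_elim, hmL, hmO] at h2
  have h3 : (univ : Finset (Fin sL.toList.length)).val.map (fun x => (mL x).add l) =
      sL.map (Kd.add l) := by
    have h4 := congrArg (Multiset.map (Kd.add l)) hmL
    rw [Multiset.map_map] at h4
    exact h4
  rw [h3] at h2
  rw [hL0] at h1
  exact h2.trans (Nat.add_le_add_right h1 _)

end Pool.Agent.V7
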