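import Pool.Agent.V7.Defs
import Pool.Agent.V7.ST.Ms

/-!
# V7: the classes of configurations

`C = binom(2M-1, M)`.  On the level `j` the nominal number of the points which lie exactly on the `L_i`,
`i ∈ I`, and impose as many conditions as an `M`-fold point is `nom M c j I * n ^ (M + |I| - j)`.
-/

set_option autoImplicit false

namespace Pool.Agent.V7

open Finset Pool.Agent.H51.TB Pool.Agent.V7.ST

/-- The finite set of the kinds on the level `j`. -/
def kds (M j : ℕ) : Finset Kd :=
  ((Icc 1 M ×ˢ (range j).powerset).image fun x => Kd.ord x.1 x.2) ∪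
    ((range j ×ˢ (range j).powerset).filter (fun x => x.2 ⊆ Ico (x.1 + 1) j)).image fun x =>
      Kd.sw x.1 x.2

theorem mem_kds {M j : ℕ} {τ : Kd} : τ ∈ kds M j ↔ τ.Ok M j := by
  unfold kds
  cases τ with
  | ord μ I =>
    simp only [mem_union, mem_image, mem_product, mem_powerset, mem_filter, mem_Icc, Prod.exists,
      Kd.ord.injEq, reduceCtorEq, and_false, exists_false, or_false, Kd.Ok]
    constructor
    · rintro ⟨a, b, ⟨⟨h1, h2⟩, h3⟩, rfl, rfl⟩
      exact ⟨h1, h2, h3⟩
    · rintro ⟨h1, h2, h3⟩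
      exact ⟨μ, I, ⟨⟨h1, h2⟩, h3⟩, rfl, rfl⟩
  | sw i I =>
    simp only [mem_union, mem_image, mem_product, mem_powerset, mem_filter, mem_range, Prod.exists,
      Kd.sw.injEq, reduceCtorEq, and_false, exists_false, false_or, Kd.Ok]
    constructor
    · rintro ⟨a, b, ⟨⟨h1, h2⟩, h3⟩, rfl, rfl⟩
      exact ⟨h1, h3⟩
    · rintro ⟨h1, h2⟩
      refine ⟨i, I, ⟨⟨h1, fun x hx => ?_⟩, h2⟩, rfl, rfl⟩
      have := mem_Ico.1 (h2 hx)
      rw [mem_range]
      exact this.2

/-- The virtual dimension of a system with `N τ` points of the kind `τ`. -/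
def vN (M c j n : ℕ) (N : Kd → ℕ) : ℤ :=
  (bb c (2 * M - 1) j n : ℤ) - ∑ τ ∈ kds M j, (N τ : ℤ) * (wt M c n τ : ℤ)

theorem vd_eq_vN (M c j n : ℕ) (s : Multiset Kd) (hs : ∀ τ ∈ s, τ ∈ kds M j) :
    vd M c j n s = vN M c j n fun τ => s.count τ := by
  unfold vd vN
  congr 1
  have h1 : (s.map (wt M c n)).sum = ∑ τ ∈ s.toFinset, s.count τ * wt M c n τ :=
    Finset.sum_multiset_map_count s (wt M c n)
  rw [h1]
  push_cast
  refine Finset.sum_subset (fun τ hτ => hs τ (Multiset.mem_toFinset.1 hτ)) fun τ _ hτ => ?_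
  rw [Multiset.mem_toFinset] at hτ
  rw [Multiset.count_eq_zero_of_notMem hτ, Nat.cast_zero, zero_mul]

/-- The nominal density of the points of multiplicity `M` with support `I` on the level `j`. -/
noncomputable def nom (M c j : ℕ) (I : Finset ℕ) : ℝ :=
  (c : ℝ) ^ (j - I.card) / (((2 * M - 1).choose M : ℝ) * ((M + I.card - j).factorial : ℝ))

/-- The number of the points of type `I` with as many conditions as an `M`-fold point (swapped points
included). -/
def tot (M j : ℕ) (N : Kd → ℕ) (I : Finset ℕ) : ℕ := N (.ord M I) + ∑ i ∈ range j, N (.sw i I)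

/-- The densities are within `e` of the nominal ones, except possibly for the type `range j`, for
which nothing is required. -/
structure Cls0 (M c j n : ℕ) (e : ℝ) (N : Kd → ℕ) : Prop where
  /-- only the kinds of the level `j` occur -/
  ok : ∀ τ, N τ ≠ 0 → τ ∈ kds M j
  /-- `M`-fold points and swapped points together -/
  big : ∀ I, I ⊆ range j → I ≠ range j →
    |(tot M j N I : ℝ) - nom M c j I * (n : ℝ) ^ (M + I.card - j)| ≤ e * (n : ℝ) ^ (M + I.card - j)
  /-- the share of the swapped points -/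
  swp : ∀ i < j, ∀ I, I ⊆ range j → (N (.sw i I) : ℝ) ≤
    (2 * ((2 * M - 1).choose M : ℝ) / c * nom M c j I + e) * (n : ℝ) ^ (M + I.card - j)
  /-- the points of smaller multiplicity -/
  sml : ∀ μ, 1 ≤ μ → μ < M → ∀ I, I ⊆ range j →
    (N (.ord μ I) : ℝ) ≤ e * (n : ℝ) ^ (2 * M - μ + I.card - j)

/-- The densities are within `e` of the nominal ones. -/
structure Cls (M c j n : ℕ) (e : ℝ) (N : Kd → ℕ) : Prop extends Cls0 M c j n e N where
  /-- the type `range j` -/
  top : |(N (.ord M (range j)) : ℝ) - nom M c j (range j) * (n : ℝ) ^ M| ≤ e * (n : ℝ) ^ M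

/-- The numbers of the residual system: `N` points on the level `j` in `n` variables, `N'` of them
specialised to `L_j`, and `y` further points of the kind `ord M ∅` swapped to `L_j`. -/
def resN (M j : ℕ) (N N' : Kd → ℕ) (y : ℕ) : Kd → ℕ
  | .ord μ I => if j ∈ I then N' (.ord μ (I.erase j)) else
      N (.ord μ I) - N' (.ord μ I) - if μ = M ∧ I = ∅ then y else 0
  | .sw i I => if i = j then (if I = ∅ then y else 0) else
      if j ∈ I then N' (.sw i (I.erase j)) else N (.sw i I) - N' (.sw i I)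

/-- Exactness on the level `j` (one half; the other one is `vd ≤ gM`). -/
def PROP (M c j : ℕ) : Prop :=
  ∃ e : ℝ, 0 < e ∧ ∃ n₀ : ℕ, ∀ n : ℕ, n₀ ≤ n → ∀ s : Multiset Kd,
    Cls M c j n e (fun τ => s.count τ) → (gM (LS M (blk c n) j) s : ℤ) ≤ max 0 (vd M c j n s)

/-- Independence without points of the kind `ord M (range j)`. -/
def OJ (M c j : ℕ) : Prop :=
  ∃ e : ℝ, 0 < e ∧ ∃ n₀ : ℕ, ∀ n : ℕ, n₀ ≤ n → ∀ s : Multiset Kd,
    Cls0 M c j n e (fun τ => s.count τ) → Kd.ord M (range j) ∉ s →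
    (gM (LS M (blk c n) j) s : ℤ) ≤ vd M c j n s

end Pool.Agent.V7
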