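import Pool.Agent.V7.Cls
import Pool.Agent.H21.NX.NumA

/-!
# V7: the numbers for `PROP M c 0 → Crit M`
-/

namespace Pool.Agent.V7

open Finset
open Pool.Agent.H18.Ex (ell ell_mono ell_pos)
open Pool.Agent.H21.NX (ell_le_pow pow_le_ell)

/-- `binom(2M-1+r, r) * (C * M!) = ell r M * ∏_(i < M) (r + M + i)`. -/
theorem critB_prod (M r : ℕ) (hM : 1 ≤ M) :
    (2 * M - 1 + r).choose r * ((2 * M - 1).choose M * M.factorial) =
      ell r M * ∏ i ∈ range M, (r + M + i) := by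
  -- multiply by `(M - 1)! * r!`
  have h1 : (2 * M - 1).choose M * M.factorial * (M - 1).factorial = (2 * M - 1).factorial := by
    have h := Nat.choose_mul_factorial_mul_factorial (show M ≤ 2 * M - 1 by omega)
    rwa [show 2 * M - 1 - M = M - 1 by omega] at h
  have h2 : (2 * M - 1 + r).choose r * r.factorial * (2 * M - 1).factorial =
      (2 * M - 1 + r).factorial := by
    have h := Nat.choose_mul_factorial_mul_factorial (show r ≤ 2 * M - 1 + r by omega)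
    rwa [show 2 * M - 1 + r - r = 2 * M - 1 by omega] at h
  have h3 : ell r M * r.factorial * (M - 1).factorial = (M + r - 1).factorial := by
    have h := Nat.choose_mul_factorial_mul_factorial (show r ≤ M + r - 1 by omega)
    rwa [show M + r - 1 - r = M - 1 by omega] at h
  have h4 : (M + r - 1).factorial * ∏ i ∈ range M, (r + M + i) = (2 * M - 1 + r).factorial := by
    have h := Nat.factorial_mul_ascFactorial (M + r - 1) M
    rw [show M + r - 1 + M = 2 * M - 1 + r by omega] at h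
    rw [← h, Nat.ascFactorial_eq_prod_range]
    congr 1
    refine Finset.prod_congr rfl fun i _ => ?_
    omega
  have hpos : 0 < (M - 1).factorial * r.factorial := by positivity
  refine Nat.eq_of_mul_eq_mul_right hpos ?_
  calc (2 * M - 1 + r).choose r * ((2 * M - 1).choose M * M.factorial) *
        ((M - 1).factorial * r.factorial)
      = (2 * M - 1 + r).choose r * r.factorial *
        ((2 * M - 1).choose M * M.factorial * (M - 1).factorial) := by ring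
    _ = (2 * M - 1 + r).factorial := by rw [h1, h2]
    _ = (M + r - 1).factorial * ∏ i ∈ range M, (r + M + i) := h4.symm
    _ = (ell r M * r.factorial * (M - 1).factorial) * ∏ i ∈ range M, (r + M + i) := by rw [h3]
    _ = _ := by ring

/-- The product is close to `n ^ M`, `n = r + 1`. -/
theorem critB_lim (M : ℕ) (δ : ℝ) (hδ : 0 < δ) : ∃ r₀ : ℕ, ∀ r, r₀ ≤ r →
    |((∏ i ∈ range M, (r + M + i) : ℕ) : ℝ) - ((r + 1 : ℕ) : ℝ) ^ M| ≤ δ * ((r + 1 : ℕ) : ℝ) ^ M := by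
  have h1 : Filter.Tendsto (fun r : ℕ => ∏ i ∈ range M, (((r + M + i : ℕ) : ℝ) / ((r + 1 : ℕ) : ℝ)))
      Filter.atTop (nhds (∏ _i ∈ range M, (1 : ℝ))) := by
    refine tendsto_finsetProd _ fun i _ => ?_
    have h2 : (fun r : ℕ => ((r + M + i : ℕ) : ℝ) / ((r + 1 : ℕ) : ℝ)) =
        fun r : ℕ => 1 + ((M : ℝ) + i - 1) / ((r + 1 : ℕ) : ℝ) := by
      funext r
      have : ((r + 1 : ℕ) : ℝ) ≠ 0 := by positivity
      field_simp
      push_cast
      ring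
    rw [h2]
    have h3 : Filter.Tendsto (fun r : ℕ => ((M : ℝ) + i - 1) / ((r + 1 : ℕ) : ℝ)) Filter.atTop
        (nhds 0) :=
      Filter.Tendsto.div_atTop tendsto_const_nhds
        ((tendsto_natCast_atTop_atTop).comp (Filter.tendsto_add_atTop_nat 1))
    simpa using h3.const_add 1
  rw [Finset.prod_const_one] at h1
  have h2 := (Metric.tendsto_atTop.1 h1) δ hδ
  obtain ⟨r₀, h⟩ := h2
  refine ⟨r₀, fun r hr => ?_⟩
  have h3 := (h r hr).le
  rw [Real.dist_eq, Finset.prod_div_distrib, Finset.prod_const, Finset.card_range] at h3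
  have hpos : (0 : ℝ) < ((r + 1 : ℕ) : ℝ) ^ M := by positivity
  have h4 : ((∏ i ∈ range M, (r + M + i) : ℕ) : ℝ) - ((r + 1 : ℕ) : ℝ) ^ M =
      ((∏ i ∈ range M, ((r + M + i : ℕ) : ℝ)) / ((r + 1 : ℕ) : ℝ) ^ M - 1) *
        ((r + 1 : ℕ) : ℝ) ^ M := by
    rw [sub_mul, one_mul, div_mul_cancel₀ _ hpos.ne', Nat.cast_prod]
  rw [h4, abs_mul, abs_of_pos hpos]
  exact mul_le_mul_of_nonneg_right h3 hpos.le

/-- The number of the `M`-fold points. -/
theorem critB_top (M : ℕ) (hM : 1 ≤ M) (e : ℝ) (he : 0 < e) : ∃ ε : ℝ, 0 < ε ∧ ∃ r₀ : ℕ,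
    ∀ r, r₀ ≤ r → ∀ N : ℕ, |((N * ell r M : ℕ) : ℝ) - ((2 * M - 1 + r).choose r : ℝ)| ≤
      ε * ((2 * M - 1 + r).choose r : ℝ) →
    |(N : ℝ) - 1 / (((2 * M - 1).choose M : ℝ) * (M.factorial : ℝ)) * ((r + 1 : ℕ) : ℝ) ^ M| ≤
      e * ((r + 1 : ℕ) : ℝ) ^ M := by
  obtain ⟨r₀, h⟩ := critB_lim M (min 1 (e / 4)) (by positivity)
  refine ⟨e / 4, by positivity, r₀, fun r hr N hN => ?_⟩
  have h1 := h r hr
  obtain ⟨s, hs⟩ : ∃ s : ℝ, s = ((2 * M - 1 + r).choose r : ℝ) := ⟨_, rfl⟩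
  obtain ⟨ℓ, hℓ⟩ : ∃ ℓ : ℝ, ℓ = (ell r M : ℝ) := ⟨_, rfl⟩
  obtain ⟨Q, hQ⟩ : ∃ Q : ℝ, Q = ((∏ i ∈ range M, (r + M + i) : ℕ) : ℝ) := ⟨_, rfl⟩
  obtain ⟨D, hD⟩ : ∃ D : ℝ, D = ((2 * M - 1).choose M : ℝ) * (M.factorial : ℝ) := ⟨_, rfl⟩
  obtain ⟨P, hP⟩ : ∃ P : ℝ, P = ((r + 1 : ℕ) : ℝ) ^ M := ⟨_, rfl⟩
  have hprod : s * D = ℓ * Q := by
    have := critB_prod M r hM
    rw [hs, hD, hℓ, hQ]
    exact_mod_cast this
  have hℓ1 : 1 ≤ ℓ := by
    rw [hℓ]
    exact_mod_cast ell_pos r hM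
  have hD1 : 1 ≤ D := by
    rw [hD]
    have h2 : 1 ≤ (2 * M - 1).choose M := Nat.choose_pos (by omega)
    have h3 : 1 ≤ M.factorial := Nat.factorial_pos M
    have h4 : 1 ≤ (2 * M - 1).choose M * M.factorial := Nat.one_le_iff_ne_zero.2 (by positivity)
    exact_mod_cast h4
  have hPpos : 0 ≤ P := by
    rw [hP]
    positivity
  rw [← hP, ← hQ] at h1
  rw [← hs] at hN
  rw [← hD, ← hP]
  have hN' : |(N : ℝ) * ℓ - s| ≤ e / 4 * s := by
    rw [hℓ]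
    have : ((N * ell r M : ℕ) : ℝ) = (N : ℝ) * (ell r M : ℝ) := by push_cast; ring
    rwa [this] at hN
  have hmin1 : min 1 (e / 4) ≤ 1 := min_le_left _ _
  have hmin2 : min 1 (e / 4) ≤ e / 4 := min_le_right _ _
  rw [abs_le] at hN' h1
  -- `|N D - Q| ≤ (e / 4) Q`
  have h5 : (N : ℝ) * D - Q ≤ e / 4 * Q := by
    have : ℓ * ((N : ℝ) * D - Q) ≤ ℓ * (e / 4 * Q) := by
      have h6 := mul_le_mul_of_nonneg_right hN'.2 (by linarith : (0 : ℝ) ≤ D)
      nlinarith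
    exact le_of_mul_le_mul_left this (by linarith)
  have h5' : -(e / 4 * Q) ≤ (N : ℝ) * D - Q := by
    have : ℓ * (-(e / 4 * Q)) ≤ ℓ * ((N : ℝ) * D - Q) := by
      have h6 := mul_le_mul_of_nonneg_right hN'.1 (by linarith : (0 : ℝ) ≤ D)
      nlinarith
    exact le_of_mul_le_mul_left this (by linarith)
  have hQ2 : Q ≤ 2 * P := by nlinarith [h1.2]
  have h7 : |(N : ℝ) * D - P| ≤ e * P := by
    rw [abs_le]
    constructor <;> nlinarith [h1.1, h1.2]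
  have h8 : (N : ℝ) - 1 / D * P = ((N : ℝ) * D - P) / D := by
    field_simp
  rw [h8, abs_div, abs_of_pos (by linarith : (0 : ℝ) < D), div_le_iff₀ (by linarith)]
  have : 0 ≤ e * P := by positivity
  nlinarith

/-- The numbers of the points of smaller multiplicity. -/
theorem critB_sml (M : ℕ) (hM : 1 ≤ M) (e : ℝ) (he : 0 < e) : ∃ ε : ℝ, 0 < ε ∧ ∀ r, 2 * M ≤ r →
    ∀ μ, 1 ≤ μ → μ < M → ∀ N : ℕ, ((N * ell r μ : ℕ) : ℝ) ≤ ε * ((2 * M - 1 + r).choose r : ℝ) →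
    (N : ℝ) ≤ e * ((r + 1 : ℕ) : ℝ) ^ (2 * M - μ) := by
  obtain ⟨K, hK⟩ : ∃ K : ℝ, K = (2 * M : ℝ) ^ (2 * M) * 2 ^ (2 * M) * 2 ^ (2 * M - 1) := ⟨_, rfl⟩
  have hKpos : 0 < K := by
    rw [hK]
    have : (0 : ℝ) < M := by exact_mod_cast hM
    positivity
  refine ⟨e / K, by positivity, fun r hr μ hμ1 hμM N hN => ?_⟩
  have hs : (((2 * M - 1 + r).choose r : ℕ) : ℝ) ≤ 2 ^ (2 * M - 1) * (r : ℝ) ^ (2 * M - 1) := by
    have h1 := ell_le_pow r (2 * M) (by omega) hr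
    have h2 : ell r (2 * M) = (2 * M - 1 + r).choose r := by
      unfold ell
      rw [show 2 * M + r - 1 = 2 * M - 1 + r by omega]
    rw [h2, mul_pow] at h1
    exact_mod_cast h1
  have hl : (r : ℝ) ^ (μ - 1) ≤ (2 * M : ℝ) ^ (2 * M) * (ell r μ : ℝ) := by
    have h1 := pow_le_ell r μ hμ1
    have h2 : μ ^ μ ≤ (2 * M) ^ (2 * M) := by
      calc μ ^ μ ≤ (2 * M) ^ μ := Nat.pow_le_pow_left (by omega) μ
        _ ≤ (2 * M) ^ (2 * M) := Nat.pow_le_pow_right (by omega) (by omega)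
    have h3 := h1.trans (Nat.mul_le_mul_right (ell r μ) h2)
    exact_mod_cast h3
  have hr0 : (0 : ℝ) < r := by exact_mod_cast (show 0 < r by omega)
  -- `N r^(μ-1) ≤ (2M)^(2M) N ell ≤ ...`
  have h1 : (N : ℝ) * (r : ℝ) ^ (μ - 1) ≤
      (2 * M : ℝ) ^ (2 * M) * (e / K * (2 ^ (2 * M - 1) * (r : ℝ) ^ (2 * M - 1))) := by
    calc (N : ℝ) * (r : ℝ) ^ (μ - 1) ≤ (N : ℝ) * ((2 * M : ℝ) ^ (2 * M) * (ell r μ : ℝ)) :=
          mul_le_mul_of_nonneg_left hl (Nat.cast_nonneg _)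
      _ = (2 * M : ℝ) ^ (2 * M) * ((N * ell r μ : ℕ) : ℝ) := by push_cast; ring
      _ ≤ (2 * M : ℝ) ^ (2 * M) * (e / K * ((2 * M - 1 + r).choose r : ℝ)) :=
          mul_le_mul_of_nonneg_left hN (by positivity)
      _ ≤ _ := by
          refine mul_le_mul_of_nonneg_left (mul_le_mul_of_nonneg_left hs (by positivity))
            (by positivity)
  have h2 : (r : ℝ) ^ (2 * M - 1) = (r : ℝ) ^ (2 * M - μ) * (r : ℝ) ^ (μ - 1) := by
    rw [← pow_add]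
    congr 1
    omega
  rw [h2] at h1
  have h3 : (N : ℝ) ≤ (2 * M : ℝ) ^ (2 * M) * (e / K * (2 ^ (2 * M - 1) * (r : ℝ) ^ (2 * M - μ))) := by
    have hp : (0 : ℝ) < (r : ℝ) ^ (μ - 1) := by positivity
    refine le_of_mul_le_mul_right ?_ hp
    calc (N : ℝ) * (r : ℝ) ^ (μ - 1) ≤ _ := h1
      _ = _ := by ring
  have h4 : (r : ℝ) ^ (2 * M - μ) ≤ ((r + 1 : ℕ) : ℝ) ^ (2 * M - μ) :=
    pow_le_pow_left₀ hr0.le (by push_cast; linarith) _
  refine h3.trans ?_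
  calc (2 * M : ℝ) ^ (2 * M) * (e / K * (2 ^ (2 * M - 1) * (r : ℝ) ^ (2 * M - μ)))
      = e * ((2 * M : ℝ) ^ (2 * M) * 2 ^ (2 * M - 1) / K) * (r : ℝ) ^ (2 * M - μ) := by ring
    _ ≤ e * 1 * (r : ℝ) ^ (2 * M - μ) := by
        have : (2 * M : ℝ) ^ (2 * M) * 2 ^ (2 * M - 1) / K ≤ 1 := by
          rw [div_le_one hKpos, hK]
          have h5 : (1 : ℝ) ≤ 2 ^ (2 * M) := one_le_pow₀ (by norm_num)
          have h6 : (0 : ℝ) ≤ (2 * M : ℝ) ^ (2 * M) * 2 ^ (2 * M - 1) := by positivity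
          nlinarith
        have h7 : (0 : ℝ) ≤ (r : ℝ) ^ (2 * M - μ) := by positivity
        exact mul_le_mul_of_nonneg_right (mul_le_mul_of_nonneg_left this he.le) h7
    _ ≤ e * ((r + 1 : ℕ) : ℝ) ^ (2 * M - μ) := by
        rw [mul_one]
        exact mul_le_mul_of_nonneg_left h4 he.le

end Pool.Agent.V7
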