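import Pool.Agent.V7.CritA
import Pool.Agent.V7.CritB

/-!
# V7: `PROP M c 0` implies `Crit M`
-/

namespace Pool.Agent.V7

open Finset MvPolynomial Pool.Agent.H51.TB Pool.Agent.V7.ST
open Pool.Agent.H18.Ex (ell ell_mono ell_pos)
open Pool.Agent.H21.NX (gdim)

private theorem Bridge_count {k : ℕ} (m : Fin k → ℕ) (μ : ℕ) :
    ((univ : Finset (Fin k)).val.map fun i => Kd.ord (m i) ∅).count (Kd.ord μ ∅) =
      (univ.filter fun i => m i = μ).card := by
  rw [Multiset.count_map, ← Finset.filter_val, Finset.card_val]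
  congr 1
  refine Finset.filter_congr fun i _ => ?_
  constructor
  · intro h
    exact (Kd.ord.inj h).1.symm
  · intro h
    rw [h]

private theorem Bridge_count_zero {k : ℕ} (m : Fin k → ℕ) (τ : Kd) (hτ : ∀ μ, τ ≠ Kd.ord μ ∅) :
    ((univ : Finset (Fin k)).val.map fun i => Kd.ord (m i) ∅).count τ = 0 := by
  refine Multiset.count_eq_zero_of_notMem fun h => ?_
  obtain ⟨i, _, hi⟩ := Multiset.mem_map.1 h
  exact hτ _ hi.symm

/-- BRIDGE. -/
theorem crit_of_prop (M c : ℕ) (hM : 2 ≤ M) (h : PROP M c 0) : Pool.Agent.H74.V7.Crit M := by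
  classical
  obtain ⟨e, he, n₀, hP⟩ := h
  obtain ⟨ε₁, hε₁, r₁, h₁⟩ := critB_top M (by omega) e he
  obtain ⟨ε₂, hε₂, h₂⟩ := critB_sml M (by omega) e he
  refine ⟨min ε₁ ε₂, lt_min hε₁ hε₂, r₁ + n₀ + 2 * M + 1, fun r hr k m hm htop hsml => ?_⟩
  obtain ⟨N, hN⟩ : ∃ N, N = (2 * M - 1 + r).choose r := ⟨_, rfl⟩
  have hNnn : (0 : ℝ) ≤ ((2 * M - 1 + r).choose r : ℝ) := Nat.cast_nonneg _
  have hm1 : min ε₁ ε₂ ≤ ε₁ := min_le_left _ _
  have hm2 : min ε₁ ε₂ ≤ ε₂ := min_le_right _ _
  obtain ⟨s, hs⟩ : ∃ s : Multiset Kd,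
      s = (univ : Finset (Fin k)).val.map fun i => Kd.ord (m i) ∅ := ⟨_, rfl⟩
  have hcls : Cls M c 0 (r + 1) e (fun τ => s.count τ) := by
    refine ⟨⟨?_, ?_, ?_, ?_⟩, ?_⟩
    · intro τ hτ
      have h3 : τ ∈ s := by
        by_contra h3
        exact hτ (Multiset.count_eq_zero_of_notMem h3)
      rw [hs] at h3
      obtain ⟨i, _, hi⟩ := Multiset.mem_map.1 h3
      rw [mem_kds, ← hi]
      exact ⟨(hm i).1, (hm i).2, Finset.empty_subset _⟩
    · intro I hI hI'
      rw [Finset.range_zero, Finset.subset_empty] at hI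
      exact absurd (hI.trans Finset.range_zero.symm) hI'
    · intro i hi
      exact absurd hi (Nat.not_lt_zero i)
    · intro μ hμ1 hμM I hI
      rw [Finset.range_zero, Finset.subset_empty] at hI
      subst hI
      have h3 := h₂ r (by omega) μ hμ1 hμM (univ.filter fun i => m i = μ).card (by
        refine le_trans ?_ (hsml.trans (mul_le_mul_of_nonneg_right hm2 hNnn))
        have h4 : (univ.filter fun i => m i = μ).card * ell r μ =
            ∑ i ∈ univ.filter (fun i => m i = μ), ell r (m i) := by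
          rw [Finset.sum_congr rfl fun i hi => by rw [(mem_filter.1 hi).2], Finset.sum_const,
            smul_eq_mul]
        rw [h4]
        exact_mod_cast Finset.sum_le_sum_of_subset (fun i hi => by
          rw [mem_filter] at hi ⊢
          exact ⟨hi.1, by omega⟩))
      rw [hs, Bridge_count]
      simpa using h3
    · have h3 := h₁ r (by omega) (univ.filter fun i => m i = M).card
        (htop.trans (mul_le_mul_of_nonneg_right hm1 hNnn))
      rw [Finset.range_zero, hs, Bridge_count]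
      have h4 : nom M c 0 ∅ = 1 / (((2 * M - 1).choose M : ℝ) * (M.factorial : ℝ)) := by
        unfold nom
        simp
      rw [h4]
      exact h3
  have h3 := hP (r + 1) (by omega) s hcls
  have h4 := critA_gdim_le M r (blk c (r + 1)) m
  rw [gd_eq_gM, ← hs] at h4
  have h5 : vd M c 0 (r + 1) s = (N : ℤ) - ((∑ i, ell r (m i) : ℕ) : ℤ) := by
    unfold vd
    have h6 : bb c (2 * M - 1) 0 (r + 1) = N := by
      have := critA_bb c (2 * M) r (by omega)
      rw [this, hN]
      unfold ell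
      rw [show 2 * M + r - 1 = 2 * M - 1 + r by omega]
    have h7 : (s.map (wt M c (r + 1))).sum = ∑ i, ell r (m i) := by
      rw [hs, Multiset.map_map]
      show ∑ i, wt M c (r + 1) (Kd.ord (m i) ∅) = _
      refine Finset.sum_congr rfl fun i _ => ?_
      show bb c (m i - 1) (∅ : Finset ℕ).card (r + 1) = _
      rw [Finset.card_empty, critA_bb c (m i) r (hm i).1]
    rw [h6, h7]
  have h6 := Pool.Agent.H74.V7.le_gdim r (2 * M - 1) (by omega) m
  rw [h5] at h3
  rw [← hN] at h6 ⊢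
  have h7 : (gdim r (2 * M - 1) m : ℤ) ≤ max 0 ((N : ℤ) - ((∑ i, ell r (m i) : ℕ) : ℤ)) :=
    le_trans (by exact_mod_cast h4) h3
  omega

end Pool.Agent.V7
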