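import Pool.Agent.V7.Step
import Pool.Agent.V7.AL.Chain
import Pool.Agent.V7.Top.Fin
import Pool.Agent.V7.BE.Beta
import Pool.Agent.V7.Bridge

/-!
# V7: the critical half, assembly

`PROP M c j` (exactness on the level `j`) holds for `j = M - 1` (`prop_top_of`, from ALPHA, BETA,
GAMMA), passes from `j + 1` to `j` (`step`), and `PROP M c 0` is the exactness of all systems of
general fat points of degree `2M - 1` in the class of the critical half (`crit_of_prop`).
-/

set_option autoImplicit false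

namespace Pool.Agent.V7

open Finset Pool.Agent.H51.TB Pool.Agent.V7.ST

/-- Exactness on the top level. -/
theorem prop_top (M : ℕ) (hM : 2 ≤ M) : ∃ c₀ L : ℕ, 1 ≤ L ∧ ∀ c, c₀ ≤ c → L ∣ c →
    PROP M c (M - 1) :=
  prop_top_of M hM (alpha M hM) (beta M hM)

/-- Exactness on the level `0`. -/
theorem prop_zero (M : ℕ) (hM : 2 ≤ M) : ∃ c, 1 ≤ c ∧ PROP M c 0 := by
  obtain ⟨c₁, L₁, hL₁, h₁⟩ := alpha M hM
  obtain ⟨c₂, L₂, hL₂, h₂⟩ := prop_top M hM
  obtain ⟨c, hc⟩ : ∃ c, c = L₁ * L₂ * (c₁ + c₂ + 2 * (2 * M - 1).choose M * M + 1) := ⟨_, rfl⟩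
  have hpos : 1 ≤ L₁ * L₂ := Nat.mul_pos hL₁ hL₂
  have hge : c₁ + c₂ + 2 * (2 * M - 1).choose M * M + 1 ≤ c := by
    rw [hc]
    exact Nat.le_mul_of_pos_left _ hpos
  have h1 := h₁ c (by omega) (by rw [hc, mul_assoc, mul_assoc]; exact Dvd.intro _ rfl)
  have h2 := h₂ c (by omega) (by rw [hc, mul_comm L₁ L₂, mul_assoc, mul_assoc]; exact Dvd.intro _ rfl)
  refine ⟨c, by omega, ?_⟩
  have key : ∀ i, i < M → PROP M c (M - 1 - i) := by
    intro i
    induction i with
    | zero => exact fun _ => h2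
    | succ i ih =>
      intro hi
      refine step M c (M - 1 - (i + 1)) (by omega) (by omega) (h1 _ (by omega)) ?_
      have h3 := ih (by omega)
      rwa [show M - 1 - (i + 1) + 1 = M - 1 - i by omega]
  have h3 := key (M - 1) (by omega)
  rwa [Nat.sub_self] at h3

/-- V7: the critical half. -/
theorem crit (M : ℕ) (hM : 2 ≤ M) : Pool.Agent.H74.V7.Crit M := by
  obtain ⟨c, _, h⟩ := prop_zero M hM
  exact crit_of_prop M c hM h

end Pool.Agent.V7
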