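import Pool.Agent.H51.TB.Win
import Pool.Agent.H21.NX.Defs
import Pool.Agent.H54.V7.Lim

/-!
# V7: definitions

Variables `s : ν` with block numbers `β s : ℕ`.  The level `j` consists of the forms of degree
`2 M - 1` all of whose monomials meet the blocks `0, …, j - 1` (they vanish on the subspaces
`L_i = {x = 0 on the block i}`, `i < j`).

Kinds of points: `ord μ I` is a point of multiplicity `μ` which lies on `L_i` for all `i ∈ I`;
`sw i I` (swapped point) is a point `p` which lies on `L_i` and on `L_{i'}`, `i' ∈ I`, together with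
a direction `v` which lies on `L_{i'}`, `i' ∈ I`: multiplicity `M` at `p`, and for every derivative of
order `1 ≤ |a| ≤ M` along `L_i` one more order of vanishing on the line `p + u v`.
A position is a function on `ν ⊕ ν`: coordinates of `p` (`Sum.inl`) and of `v` (`Sum.inr`); the
coordinates on the blocks where the point has to vanish are replaced by `0` (`msk`).
-/

set_option autoImplicit false
set_option linter.unusedSectionVars false

namespace Pool.Agent.V7

open Finset MvPolynomial Pool.Agent.H51.TB Pool.Agent.H54.V7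
open Pool.Agent.H18.Ex (tcr)

/-- The kinds of points. -/
inductive Kd : Type
  | ord (μ : ℕ) (I : Finset ℕ) : Kd
  | sw (i : ℕ) (I : Finset ℕ) : Kd
  deriving DecidableEq

/-- The kind of a point which lies on the subspace `L_j` too. -/
def Kd.add (j : ℕ) : Kd → Kd
  | .ord μ I => .ord μ (insert j I)
  | .sw i I => .sw i (insert j I)

/-- The kinds of the level `j` for the multiplicity `M`. -/
def Kd.Ok (M j : ℕ) : Kd → Prop
  | .ord μ I => 1 ≤ μ ∧ μ ≤ M ∧ I ⊆ range j
  | .sw i I => i < j ∧ I ⊆ Ico (i + 1) j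

/-- Simple points. -/
abbrev Kd.sm : Kd := .ord 1 ∅

/-! ### Numbers -/

/-- The number of monomials of degree `k` in `n` variables which meet `j` blocks of size `c`
(for `j c ≤ n`). -/
def bb (c k : ℕ) : ℕ → ℕ → ℕ
  | 0, n => Nat.multichoose n k
  | j + 1, n => bb c k j n - bb c k j (n - c)

/-- The number of conditions of a point. -/
def wt (M c n : ℕ) : Kd → ℕ
  | .ord μ I => bb c (μ - 1) I.card n
  | .sw _ I => bb c (M - 1) I.card n - if I = ∅ then 1 else 0

/-- The virtual dimension of a configuration. -/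
def vd (M c j n : ℕ) (s : Multiset Kd) : ℤ :=
  (bb c (2 * M - 1) j n : ℤ) - ((s.map (wt M c n)).sum : ℕ)

/-! ### Systems -/

/-- The coordinates on the blocks of `I` are replaced by `0`. -/
def msk {ν R : Type} [Zero R] (β : ν → ℕ) (I : Finset ℕ) (q : ν → R) : ν → R :=
  fun s => if β s ∈ I then 0 else q s

section

variable {ν : Type} [Fintype ν] [DecidableEq ν]

/-- The exponents of degree `d` which meet the blocks `0, …, j - 1`. -/
def Ex (β : ν → ℕ) (d j : ℕ) : Finset (ν → ℕ) :=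
  (Pool.Agent.H21.NX.Sx ν d).filter fun a => ∀ i < j, ∃ s, β s = i ∧ a s ≠ 0

theorem mem_Ex {β : ν → ℕ} {d j : ℕ} {a : ν → ℕ} :
    a ∈ Ex β d j ↔ ∑ s, a s = d ∧ ∀ i < j, ∃ s, β s = i ∧ a s ≠ 0 := by
  unfold Ex
  rw [mem_filter, Pool.Agent.H21.NX.mem_Sx]

/-- The indices of the conditions of a kind. -/
def Cdx (M : ℕ) (β : ν → ℕ) : Kd → Type
  | .ord μ _ => {b : ν → ℕ // ∑ s, b s < μ}
  | .sw i _ => {b : ν → ℕ // ∑ s, b s < M} ⊕
      {a : ν → ℕ // (∀ s, β s = i → a s = 0) ∧ 1 ≤ ∑ s, a s ∧ ∑ s, a s ≤ M}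

theorem finite_lt (μ : ℕ) (P : (ν → ℕ) → Prop) (h : ∀ b, P b → ∑ s, b s ≤ μ) :
    Finite {b : ν → ℕ // P b} := by
  have h0 : {f : ν → ℕ | ∀ i, f i ∈ Set.Iic μ}.Finite :=
    Set.Finite.pi' fun _ => Set.finite_Iic μ
  have h1 : {b : ν → ℕ | P b} ⊆ {f : ν → ℕ | ∀ i, f i ∈ Set.Iic μ} := by
    intro b hb i
    exact (single_le_sum (f := b) (fun _ _ => Nat.zero_le _) (mem_univ i)).trans (h b hb)
  exact (h0.subset h1).to_subtype

/-- The coefficients of the conditions of a kind. -/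
noncomputable def cof (M : ℕ) (β : ν → ℕ) : (k : Kd) → Cdx M β k → (ν → ℕ) →
    MvPolynomial (ν ⊕ ν) ℂ
  | .ord _ I, b, e => tcr (msk β I fun s => X (Sum.inl s)) e b.1
  | .sw i I, Sum.inl b, e => tcr (msk β (insert i I) fun s => X (Sum.inl s)) e b.1
  | .sw i I, Sum.inr a, e => ∑ b ∈ bxd ν (2 * M) M,
      tcr (msk β I fun s => X (Sum.inr s)) b a.1 *
        tcr (msk β (insert i I) fun s => X (Sum.inl s)) e b

/-- The system of the forms with the exponents `A`. -/
noncomputable def LSA (M : ℕ) (β : ν → ℕ) (A : Finset (ν → ℕ)) : Sys {a // a ∈ A} (ν ⊕ ν) Kd where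
  R := Cdx M β
  fin := by
    rintro (⟨μ, I⟩ | ⟨i, I⟩)
    · exact finite_lt μ _ fun b hb => hb.le
    · have h1 : Finite {b : ν → ℕ // ∑ s, b s < M} := finite_lt M _ fun b hb => hb.le
      have h2 : Finite {a : ν → ℕ // (∀ s, β s = i → a s = 0) ∧ 1 ≤ ∑ s, a s ∧ ∑ s, a s ≤ M} :=
        finite_lt M _ fun b hb => hb.2.2
      exact Finite.instSum
  co := fun k r e => cof M β k r e.1

/-- The system of the level `j`: forms of degree `2 M - 1` which vanish on `L_0, …, L_{j - 1}`. -/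
noncomputable abbrev LS (M : ℕ) (β : ν → ℕ) (j : ℕ) :
    Sys {a // a ∈ Ex β (2 * M - 1) j} (ν ⊕ ν) Kd :=
  LSA M β (Ex β (2 * M - 1) j)

/-- The conditions of a point of kind `k` at the position `q`. -/
def SatK (M : ℕ) (β : ν → ℕ) {A : Finset (ν → ℕ)} (k : Kd) (q : ν ⊕ ν → ℂ)
    (f : {a // a ∈ A} → ℂ) : Prop :=
  match k with
  | .ord μ I => Fat (fun e : {a // a ∈ A} => e.1) μ (msk β I fun s => q (Sum.inl s)) f
  | .sw i I => Fat (fun e : {a // a ∈ A} => e.1) M (msk β (insert i I) fun s => q (Sum.inl s)) f ∧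
      Sw (fun e : {a // a ∈ A} => e.1) M (2 * M) (univ.filter fun s => β s = i)
        (msk β (insert i I) fun s => q (Sum.inl s)) (msk β I fun s => q (Sum.inr s)) f

theorem eval_tcr_msk (β : ν → ℕ) (I : Finset ℕ) (φ : ν → ν ⊕ ν) (q : ν ⊕ ν → ℂ) (e b : ν → ℕ) :
    eval q (tcr (msk β I fun s => (X (φ s) : MvPolynomial (ν ⊕ ν) ℂ)) e b) =
      tcr (msk β I fun s => q (φ s)) e b := by
  unfold tcr
  rw [map_prod]
  refine prod_congr rfl fun s _ => ?_
  rw [map_mul, map_pow, map_natCast]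
  congr 2
  unfold msk
  split_ifs
  · rw [map_zero]
  · rw [eval_X]

theorem eval_cof_ord (M : ℕ) (β : ν → ℕ) (μ : ℕ) (I : Finset ℕ) (r : Cdx M β (.ord μ I))
    (q : ν ⊕ ν → ℂ) (e : ν → ℕ) : eval q (cof M β (.ord μ I) r e) =
      tcr (msk β I fun s => q (Sum.inl s)) e r.1 :=
  eval_tcr_msk β I Sum.inl q e r.1

theorem eval_cof_sw_inl (M : ℕ) (β : ν → ℕ) (i : ℕ) (I : Finset ℕ)
    (b : {b : ν → ℕ // ∑ s, b s < M}) (q : ν ⊕ ν → ℂ) (e : ν → ℕ) :
    eval q (cof M β (.sw i I) (Sum.inl b) e) =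
      tcr (msk β (insert i I) fun s => q (Sum.inl s)) e b.1 :=
  eval_tcr_msk β (insert i I) Sum.inl q e b.1

theorem eval_cof_sw_inr (M : ℕ) (β : ν → ℕ) (i : ℕ) (I : Finset ℕ)
    (a : {a : ν → ℕ // (∀ s, β s = i → a s = 0) ∧ 1 ≤ ∑ s, a s ∧ ∑ s, a s ≤ M})
    (q : ν ⊕ ν → ℂ) (e : ν → ℕ) :
    eval q (cof M β (.sw i I) (Sum.inr a) e) = ∑ b ∈ bxd ν (2 * M) M,
      tcr (msk β I fun s => q (Sum.inr s)) b a.1 *
        tcr (msk β (insert i I) fun s => q (Sum.inl s)) e b := by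
  show eval q (∑ b ∈ bxd ν (2 * M) M, tcr (msk β I fun s => X (Sum.inr s)) b a.1 *
    tcr (msk β (insert i I) fun s => X (Sum.inl s)) e b) = _
  rw [map_sum]
  refine sum_congr rfl fun b _ => ?_
  rw [map_mul, eval_tcr_msk, eval_tcr_msk]

theorem mem_LSA (M : ℕ) (β : ν → ℕ) (A : Finset (ν → ℕ)) {κ : Type} (m : κ → Kd)
    (p : κ → ν ⊕ ν → ℂ) (f : {a // a ∈ A} → ℂ) :
    f ∈ (LSA M β A).V m p ↔ ∀ i, SatK M β (m i) (p i) f := by
  rw [Sys.mem_V]
  refine forall_congr' fun x => ?_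
  generalize m x = k
  generalize p x = q
  show (∀ r : Cdx M β k, ∑ e : {a // a ∈ A}, eval q (cof M β k r e.1) * f e = 0) ↔ _
  rcases k with ⟨μ, I⟩ | ⟨i, I⟩
  · constructor
    · intro h b hb
      rw [← h (⟨b, hb⟩ : {b : ν → ℕ // ∑ s, b s < μ})]
      refine sum_congr rfl fun e _ => ?_
      rw [eval_cof_ord, mul_comm]
    · intro h r
      rw [← h r.1 r.2]
      refine sum_congr rfl fun e _ => ?_
      rw [eval_cof_ord, mul_comm]
  · constructor
    · intro h
      refine ⟨fun b hb => ?_, fun a h1 h2 h3 => ?_⟩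
      · rw [← h (Sum.inl (⟨b, hb⟩ : {b : ν → ℕ // ∑ s, b s < M}))]
        refine sum_congr rfl fun e _ => ?_
        rw [eval_cof_sw_inl, mul_comm]
      · have h1' : ∀ s, β s = i → a s = 0 := fun s hs => h1 s (by rw [mem_filter]; exact ⟨mem_univ s, hs⟩)
        rw [← h (Sum.inr (⟨a, h1', h2, h3⟩ :
          {a : ν → ℕ // (∀ s, β s = i → a s = 0) ∧ 1 ≤ ∑ s, a s ∧ ∑ s, a s ≤ M}))]
        simp only [mul_sum]
        rw [sum_comm]
        refine sum_congr rfl fun e _ => ?_
        rw [eval_cof_sw_inr, sum_mul]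
        refine sum_congr rfl fun b _ => ?_
        ring
    · intro h r
      rcases r with b | a
      · rw [← h.1 b.1 b.2]
        refine sum_congr rfl fun e _ => ?_
        rw [eval_cof_sw_inl, mul_comm]
      · rw [← h.2 a.1 (fun s hs => a.2.1 s (by rw [mem_filter] at hs; exact hs.2)) a.2.2.1 a.2.2.2]
        simp only [mul_sum]
        rw [sum_comm]
        refine sum_congr rfl fun e _ => ?_
        rw [eval_cof_sw_inr, sum_mul]
        refine sum_congr rfl fun b _ => ?_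
        ring

/-- The canonical variables: `n` variables, block number `s / c`. -/
def blk (c n : ℕ) : Fin n → ℕ := fun s => s.1 / c

end

end Pool.Agent.V7
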