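import Pool.Agent.V7.Cls
import Pool.Agent.H74.V7.FinB
import Pool.Agent.H21.NX.Conv

/-!
# V7: forms in `r + 1` variables as the system of the level `0`
-/

namespace Pool.Agent.V7

open Finset MvPolynomial Pool.Agent.H51.TB Pool.Agent.H54.V7 Pool.Agent.V7.ST
open Pool.Agent.H18.Fat (fatForms VanishesToOrder mons mem_mons)
open Pool.Agent.H18.Ex (tcr cf sat_of_vanishes Kind ell)
open Pool.Agent.H21.NX (gdim Sx mem_Sx)
open Pool.Agent.H21.NX.ConvX (mem_Sx_coe symm_coe)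

theorem critA_mem_Ex {ν : Type} [Fintype ν] [DecidableEq ν] {β : ν → ℕ} {d : ℕ} {a : ν → ℕ} :
    a ∈ Ex β d 0 ↔ ∑ s, a s = d := by
  rw [mem_Ex]
  constructor
  · exact fun h => h.1
  · exact fun h => ⟨h, fun i hi => absurd hi (Nat.not_lt_zero i)⟩

/-- The coefficient function on a set of exponents. -/
noncomputable def CritA_Phi {n : ℕ} (A : Finset (Fin n → ℕ)) :
    MvPolynomial (Fin n) ℂ →ₗ[ℂ] ({a // a ∈ A} → ℂ) where
  toFun F := fun e => cf F e.1
  map_add' F G := by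
    funext e
    exact coeff_add _ _ _
  map_smul' c F := by
    funext e
    exact coeff_smul _ _ _

theorem critA_gdim_le (M r : ℕ) (β : Fin (r + 1) → ℕ) {κ : Type} [Fintype κ] (m : κ → ℕ) :
    gdim r (2 * M - 1) m ≤ (LS M β 0).gd fun i => Kd.ord (m i) ∅ := by
  classical
  obtain ⟨p, hp⟩ := gd_attained (LS M β 0) fun i => Kd.ord (m i) ∅
  rw [← hp]
  let pos : κ → Fin (r + 1) → ℂ := fun i s => p i (Sum.inl s)
  have h1 : gdim r (2 * M - 1) m ≤ Module.finrank ℂ (fatForms r (2 * M - 1) pos m) :=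
    Nat.sInf_le ⟨pos, rfl⟩
  refine h1.trans ?_
  have hsupp : ∀ F ∈ fatForms r (2 * M - 1) pos m, ∀ α ∈ F.support,
      (⇑α : Fin (r + 1) → ℕ) ∈ Pool.Agent.H18.Ex.Rg (2 * M - 1) (fun _ => 2 * M - 1) := by
    intro F hF α hα
    rw [MvPolynomial.mem_support_iff] at hα
    have hαd : α ∈ mons (r + 1) (2 * M - 1) := by
      rw [mem_mons]
      by_contra h
      exact hα (hF.1.coeff_eq_zero h)
    exact mem_Sx_coe.2 hαd
  have hmem : ∀ F ∈ fatForms r (2 * M - 1) pos m,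
      CritA_Phi (Ex β (2 * M - 1) 0) F ∈ (LS M β 0).V (fun i => Kd.ord (m i) ∅) p := by
    intro F hF
    rw [mem_LSA]
    intro i b hb
    have h2 := sat_of_vanishes (hsupp F hF) (hF.2 i) b hb
    have h3 : msk β ∅ (fun s => p i (Sum.inl s)) = pos i := by
      funext s
      simp [msk, pos]
    rw [h3]
    show ∑ e : {a // a ∈ Ex β (2 * M - 1) 0}, cf F e.1 * tcr (pos i) e.1 b = 0
    rw [← h2]
    rw [Finset.sum_coe_sort (Ex β (2 * M - 1) 0) fun e => cf F e * tcr (pos i) e b]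
    refine Finset.sum_congr ?_ fun _ _ => rfl
    ext a
    rw [critA_mem_Ex]
    exact (mem_Sx (ι := Fin (r + 1))).symm
  let Ψ : fatForms r (2 * M - 1) pos m →ₗ[ℂ] (LS M β 0).V (fun i => Kd.ord (m i) ∅) p :=
    ((CritA_Phi (Ex β (2 * M - 1) 0)).comp (fatForms r (2 * M - 1) pos m).subtype).codRestrict _
      fun F => hmem F.1 F.2
  refine LinearMap.finrank_le_finrank_of_injective (f := Ψ) ?_
  rw [← LinearMap.ker_eq_bot, LinearMap.ker_eq_bot']
  intro F hF
  have h4 : ∀ a ∈ Ex β (2 * M - 1) 0, cf F.1 a = 0 := by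
    intro a ha
    have h5 : (Ψ F : {a // a ∈ Ex β (2 * M - 1) 0} → ℂ) ⟨a, ha⟩ = 0 := by
      rw [hF]
      rfl
    exact h5
  apply Subtype.ext
  by_contra hne
  obtain ⟨α, hα⟩ := MvPolynomial.ne_zero_iff.1 hne
  have h6 := hsupp F.1 F.2 α (MvPolynomial.mem_support_iff.2 hα)
  have h7 := h4 (⇑α) (by
    rw [critA_mem_Ex]
    exact (mem_Sx (ι := Fin (r + 1))).1 h6)
  unfold cf at h7
  rw [symm_coe] at h7
  exact hα h7

theorem critA_bb (c k r : ℕ) (hk : 1 ≤ k) : bb c (k - 1) 0 (r + 1) = ell r k := by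
  show Nat.multichoose (r + 1) (k - 1) = (k + r - 1).choose r
  rw [Nat.multichoose_eq, show r + 1 + (k - 1) - 1 = k + r - 1 by omega]
  rw [← Nat.choose_symm (show k - 1 ≤ k + r - 1 by omega)]
  congr 1
  omega

end Pool.Agent.V7
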