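import Pool.Agent.V7.Tr
import Pool.Agent.V7.ST.Ms

/-!
# V7, block DH: the differential Horace step for configurations of kinds
-/

set_option autoImplicit false
set_option linter.unusedSectionVars false

namespace Pool.Agent.V7

open Finset MvPolynomial Pool.Agent.H51.TB Pool.Agent.H54.V7
open Pool.Agent.H18.Ex (tcr)

section

variable {ν : Type} [Fintype ν] [DecidableEq ν]

theorem mem_Bj {β : ν → ℕ} {j : ℕ} {s : ν} : s ∈ Bj β j ↔ β s = j := by
  rw [mem_filter]
  exact ⟨fun h => h.2, fun h => ⟨mem_univ s, h⟩⟩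

/-- The trace of the conditions of a point of the subspace. -/
theorem SatK_trace (M : ℕ) (β : ν → ℕ) (j : ℕ) (A : Finset (ν → ℕ)) (k : Kd) (q : ν ⊕ ν → ℂ)
    (f : {a // a ∈ A} → ℂ) (h : SatK M β k (mq β j q) f) :
    SatK M β k q (rs (filter_subset (fun a : ν → ℕ => ∀ s ∈ Bj β j, a s = 0) A) f) := by
  have h1 : ∀ (I : Finset ℕ) (g : ν → ℂ), ∀ s ∈ Bj β j, msk β I (msk β {j} g) s = 0 := by
    intro I g s hs
    unfold msk
    rw [mem_Bj] at hs
    split_ifs with h2 h3
    · rfl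
    · rfl
    · exact absurd (mem_singleton.2 hs) h3
  have h2 : ∀ (I : Finset ℕ) (g : ν → ℂ), ∀ s, s ∉ Bj β j →
      msk β I g s = msk β I (msk β {j} g) s := by
    intro I g s hs
    unfold msk
    rw [mem_Bj] at hs
    split_ifs with h2 h3
    · rfl
    · exact absurd (mem_singleton.1 h3) hs
    · rfl
  rcases k with ⟨μ, I⟩ | ⟨i, I⟩
  · exact Fat_trace β j A μ f _ _ (h1 I _) (h2 I _) h
  · exact ⟨Fat_trace β j A M f _ _ (h1 (insert i I) _) (h2 (insert i I) _) h.1,
      Sw_trace β j A M (2 * M) _ f _ _ _ _ (h1 (insert i I) _) (h2 (insert i I) _) (h1 I _)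
        (h2 I _) h.2⟩

/-- The residual of the conditions of a point of the subspace. -/
theorem SatK_resid_add (M : ℕ) (β : ν → ℕ) (j : ℕ) (A : Finset (ν → ℕ)) (k : Kd)
    (q : ν ⊕ ν → ℂ) (f : {a // a ∈ A} → ℂ)
    (hf : ∀ e : {a // a ∈ A}, (∀ s ∈ Bj β j, e.1 s = 0) → f e = 0)
    (h : SatK M β k (mq β j q) f) :
    SatK M β (k.add j) q (rs (filter_subset (fun a : ν → ℕ => ¬ ∀ s ∈ Bj β j, a s = 0) A) f) := by
  have h1 : ∀ (I : Finset ℕ) (g : ν → ℂ), msk β I (msk β {j} g) = msk β (insert j I) g := by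
    intro I g
    funext s
    unfold msk
    by_cases h2 : β s ∈ I
    · rw [if_pos h2, if_pos (mem_insert_of_mem h2)]
    · rw [if_neg h2]
      by_cases h3 : β s = j
      · rw [if_pos (mem_singleton.2 h3), if_pos (mem_insert.2 (Or.inl h3))]
      · rw [if_neg (fun h => h3 (mem_singleton.1 h)), if_neg]
        intro h
        rcases mem_insert.1 h with h | h
        · exact h3 h
        · exact h2 h
  rcases k with ⟨μ, I⟩ | ⟨i, I⟩
  · have h2 : Fat (fun e : {a // a ∈ A} => e.1) μ (msk β I (msk β {j} fun s => q (Sum.inl s))) f :=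
      h
    rw [h1] at h2
    exact Fat_resid β j A μ f hf _ h2
  · have h2 : Fat (fun e : {a // a ∈ A} => e.1) M
        (msk β (insert i I) (msk β {j} fun s => q (Sum.inl s))) f := h.1
    have h3 : Sw (fun e : {a // a ∈ A} => e.1) M (2 * M) (univ.filter fun s => β s = i)
        (msk β (insert i I) (msk β {j} fun s => q (Sum.inl s)))
        (msk β I (msk β {j} fun s => q (Sum.inr s))) f := h.2
    rw [h1, insert_comm] at h2
    rw [h1, h1, insert_comm] at h3
    exact ⟨Fat_resid β j A M f hf _ h2, Sw_resid β j A M (2 * M) _ f hf _ _ h3⟩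

/-- The residual of the conditions of any point. -/
theorem SatK_resid (M : ℕ) (β : ν → ℕ) (j : ℕ) (A : Finset (ν → ℕ)) (k : Kd)
    (q : ν ⊕ ν → ℂ) (f : {a // a ∈ A} → ℂ)
    (hf : ∀ e : {a // a ∈ A}, (∀ s ∈ Bj β j, e.1 s = 0) → f e = 0)
    (h : SatK M β k q f) :
    SatK M β k q (rs (filter_subset (fun a : ν → ℕ => ¬ ∀ s ∈ Bj β j, a s = 0) A) f) := by
  rcases k with ⟨μ, I⟩ | ⟨i, I⟩
  · exact Fat_resid β j A μ f hf _ h
  · exact ⟨Fat_resid β j A M f hf _ h.1, Sw_resid β j A M (2 * M) _ f hf _ _ h.2⟩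

theorem msk_empty (β : ν → ℕ) (g : ν → ℂ) : msk β ∅ g = g := by
  funext s
  unfold msk
  rw [if_neg (notMem_empty _)]

/-- **The differential Horace step**, for families of points. -/
theorem dh_gd (M : ℕ) (hM : 1 ≤ M) (β : ν → ℕ) (j : ℕ) (A : Finset (ν → ℕ))
    (hA : ∀ a ∈ A, ∀ s, a s < 2 * M) {κL κO : Type} [Fintype κL] [Fintype κO]
    (mL : κL → Kd) (mO : κO → Kd) (y a : ℕ)
    (h0 : (LSA M β (A0 β j A)).gd (Sum.elim mL fun _ : Fin y ⊕ Fin a => Kd.sm) = 0) :
    (LSA M β A).gd (Sum.elim mL (Sum.elim mO (Sum.elim (fun _ : Fin y => Kd.ord M ∅)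
      fun _ : Fin a => Kd.sm))) ≤
      (LSA M β (A1 β j A)).gd (Sum.elim (fun x => (mL x).add j)
        (Sum.elim mO fun _ : Fin y => Kd.sw j ∅)) := by
  classical
  -- the positions
  obtain ⟨P, hP1, hP2⟩ : ∃ P : κL ⊕ (κO ⊕ (Fin y ⊕ Fin a)) → ν ⊕ ν → ℂ,
      Module.finrank ℂ ((LSA M β (A0 β j A)).V (Sum.elim mL fun _ : Fin y ⊕ Fin a => Kd.sm)
        fun x => P (Sum.map id Sum.inr x)) = 0 ∧
      Module.finrank ℂ ((LSA M β (A1 β j A)).V (Sum.elim (fun x => (mL x).add j)
        (Sum.elim mO fun _ : Fin y => Kd.sw j ∅))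
        fun x => P (Sum.map id (Sum.map id Sum.inl) x)) =
      (LSA M β (A1 β j A)).gd (Sum.elim (fun x => (mL x).add j)
        (Sum.elim mO fun _ : Fin y => Kd.sw j ∅)) := by
    have g1 := (gn_gd (LSA M β (A0 β j A)) (Sum.elim mL fun _ : Fin y ⊕ Fin a => Kd.sm)).comap
      (Sum.map id Sum.inr : κL ⊕ (Fin y ⊕ Fin a) → κL ⊕ (κO ⊕ (Fin y ⊕ Fin a)))
      (Sum.map_injective.2 ⟨Function.injective_id, Sum.inr_injective⟩)
    have g2 := (gn_gd (LSA M β (A1 β j A)) (Sum.elim (fun x => (mL x).add j)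
      (Sum.elim mO fun _ : Fin y => Kd.sw j ∅))).comap
      (Sum.map id (Sum.map id Sum.inl) : κL ⊕ (κO ⊕ Fin y) → κL ⊕ (κO ⊕ (Fin y ⊕ Fin a)))
      (Sum.map_injective.2 ⟨Function.injective_id,
        Sum.map_injective.2 ⟨Function.injective_id, Sum.inl_injective⟩⟩)
    obtain ⟨P, h1, h2⟩ := (g1.and g2).exists
    rw [h0] at h1
    exact ⟨P, h1, h2⟩
  set p : Fin y → ν → ℂ := fun s => msk β {j} fun x => P (Sum.inr (Sum.inr (Sum.inl s))) (Sum.inl x)
    with hp
  set v : Fin y → ν → ℂ := fun s x => P (Sum.inr (Sum.inr (Sum.inl s))) (Sum.inr x) with hv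
  set W : Submodule ℂ ({a // a ∈ A} → ℂ) :=
    (LSA M β A).V (Sum.elim mL (Sum.elim mO fun _ : Fin a => Kd.sm))
      (Sum.elim (fun i => mq β j (P (Sum.inl i))) (Sum.elim (fun i => P (Sum.inr (Sum.inl i)))
        fun i => mq β j (P (Sum.inr (Sum.inr (Sum.inr i)))))) with hW
  have hpB : ∀ s, ∀ x ∈ Bj β j, p s x = 0 := by
    intro s x hx
    rw [hp]
    show msk β {j} _ x = 0
    unfold msk
    rw [if_pos (mem_singleton.2 (mem_Bj.1 hx))]
  have hWL : ∀ f ∈ W, ∀ i, SatK M β (mL i) (mq β j (P (Sum.inl i))) f := by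
    intro f hf i
    rw [hW, mem_LSA] at hf
    exact hf (Sum.inl i)
  have hWO : ∀ f ∈ W, ∀ i, SatK M β (mO i) (P (Sum.inr (Sum.inl i))) f := by
    intro f hf i
    rw [hW, mem_LSA] at hf
    exact hf (Sum.inr (Sum.inl i))
  have hWa : ∀ f ∈ W, ∀ i, SatK M β Kd.sm (mq β j (P (Sum.inr (Sum.inr (Sum.inr i))))) f := by
    intro f hf i
    rw [hW, mem_LSA] at hf
    exact hf (Sum.inr (Sum.inr i))
  obtain ⟨t, ht⟩ := dh_step (fun e : {a // a ∈ A} => e.1) M (2 * M) hM (fun e i => hA e.1 e.2 i)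
    (Bj β j) W p v hpB (by
    intro f hf hsim e he
    have h1 : rs (filter_subset (fun a : ν → ℕ => ∀ s ∈ Bj β j, a s = 0) A) f ∈
        (LSA M β (A0 β j A)).V (Sum.elim mL fun _ : Fin y ⊕ Fin a => Kd.sm)
          fun x => P (Sum.map id Sum.inr x) := by
      rw [mem_LSA]
      rintro (i | i | i)
      · exact SatK_trace M β j A (mL i) (P (Sum.inl i)) f (hWL f hf i)
      · show SatK M β Kd.sm (P (Sum.inr (Sum.inr (Sum.inl i)))) _
        intro b hb
        have hb0 : b = 0 := by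
          funext x
          have h2 : b x ≤ ∑ x, b x := single_le_sum (f := b) (fun _ _ => Nat.zero_le _) (mem_univ x)
          have h3 : b x = 0 := by omega
          rw [h3]
          rfl
        have h2 : TC (fun e : {a // a ∈ A0 β j A} => e.1)
            (rs (filter_subset (fun a : ν → ℕ => ∀ s ∈ Bj β j, a s = 0) A) f)
            (msk β ∅ fun x => P (Sum.inr (Sum.inr (Sum.inl i))) (Sum.inl x)) b = 0 := by
          rw [hb0, TC_A0 β j A _ _ (p i), TC_trace β j A f (p i) (hpB i) 0 (fun _ _ => rfl)]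
          · refine Eq.trans ?_ (hsim i)
            unfold TC
            symm
            refine sum_subset (filter_subset _ _) fun e _ he => ?_
            rw [mem_filter] at he
            rw [tcr_off (Bj β j) (p i) (hpB i) e.1 0 (fun _ _ => rfl), mul_zero]
            intro h3
            exact he ⟨mem_univ e, h3⟩
          · intro x hx
            rw [msk_empty, hp]
            show _ = msk β {j} (fun x => P (Sum.inr (Sum.inr (Sum.inl i))) (Sum.inl x)) x
            unfold msk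
            rw [if_neg fun h3 => hx (mem_Bj.2 (mem_singleton.1 h3))]
        exact h2
      · exact SatK_trace M β j A Kd.sm (P (Sum.inr (Sum.inr (Sum.inr i)))) f (hWa f hf i)
    rw [Submodule.finrank_eq_zero.1 hP1, Submodule.mem_bot] at h1
    exact congrFun h1 ⟨e.1, mem_filter.2 ⟨e.2, he⟩⟩)
  set Q : κL ⊕ (κO ⊕ (Fin y ⊕ Fin a)) → ν ⊕ ν → ℂ :=
    Sum.elim (fun i => mq β j (P (Sum.inl i))) (Sum.elim (fun i => P (Sum.inr (Sum.inl i)))
      (Sum.elim (fun s => Sum.elim (fun x => p s x + t * v s x) 0)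
        fun i => mq β j (P (Sum.inr (Sum.inr (Sum.inr i)))))) with hQ
  refine (gd_le _ _ Q).trans ?_
  refine (Submodule.finrank_mono (t := fatSub W (fun e : {a // a ∈ A} => e.1) M
    fun s i => p s i + t * v s i) ?_).trans (ht.trans ?_)
  · intro f hf
    rw [mem_LSA] at hf
    refine ⟨?_, fun s => ?_⟩
    · rw [hW, mem_LSA]
      rintro (i | i | i)
      · exact hf (Sum.inl i)
      · exact hf (Sum.inr (Sum.inl i))
      · exact hf (Sum.inr (Sum.inr (Sum.inr i)))
    · have h1 : Fat (fun e : {a // a ∈ A} => e.1) M (msk β ∅ fun x => p s x + t * v s x) f :=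
        hf (Sum.inr (Sum.inr (Sum.inl s)))
      rw [msk_empty] at h1
      exact h1
  · rw [← hP2]
    let L : resSub W (fun e : {a // a ∈ A} => e.1) M (2 * M) (Bj β j) p v →ₗ[ℂ]
        (LSA M β (A1 β j A)).V (Sum.elim (fun x => (mL x).add j)
        (Sum.elim mO fun _ : Fin y => Kd.sw j ∅))
        fun x => P (Sum.map id (Sum.map id Sum.inl) x) :=
      { toFun := fun f => ⟨rs (filter_subset (fun a : ν → ℕ => ¬ ∀ s ∈ Bj β j, a s = 0) A) f.1, by
          obtain ⟨f, hfW, hf0, hfF, hfS⟩ := f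
          rw [mem_LSA]
          rintro (i | i | i)
          · exact SatK_resid_add M β j A (mL i) (P (Sum.inl i)) f hf0 (hWL f hfW i)
          · exact SatK_resid M β j A (mO i) (P (Sum.inr (Sum.inl i))) f hf0 (hWO f hfW i)
          · have e1 : (insert j ∅ : Finset ℕ) = {j} := insert_empty_eq j
            show SatK M β (Kd.sw j ∅) (P (Sum.inr (Sum.inr (Sum.inl i)))) _
            refine ⟨?_, ?_⟩
            · rw [e1]
              exact Fat_resid β j A M f hf0 (p i) (hfF i)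
            · rw [e1, msk_empty]
              exact Sw_resid β j A M (2 * M) _ f hf0 (p i) (v i) (hfS i)⟩
        map_add' := fun _ _ => rfl
        map_smul' := fun _ _ => rfl }
    refine LinearMap.finrank_le_finrank_of_injective (f := L) ?_
    intro f f' hff
    have h1 : ∀ e : {a // a ∈ A1 β j A}, rs (filter_subset _ A) f.1 e =
        rs (filter_subset _ A) f'.1 e := fun e => congrFun (congrArg Subtype.val hff) e
    apply Subtype.ext
    funext e
    by_cases he : ∀ s ∈ Bj β j, e.1 s = 0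
    · rw [f.2.2.1 e he, f'.2.2.1 e he]
    · exact h1 ⟨e.1, mem_filter.2 ⟨e.2, he⟩⟩

end

end Pool.Agent.V7
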