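import Pool.Agent.V7.DH

/-!
# V7, block DH: the differential Horace step for multisets of kinds, `n` numbered variables
-/

set_option autoImplicit false
set_option linter.unusedSectionVars false

namespace Pool.Agent.V7

open Finset MvPolynomial Pool.Agent.H51.TB Pool.Agent.H54.V7 Pool.Agent.V7.ST
open Pool.Agent.H18.Ex (tcr)

section

variable {ν ν' : Type} [Fintype ν] [DecidableEq ν] [Fintype ν'] [DecidableEq ν']

/-- Extension by zero of an exponent. -/
noncomputable def xt (σ : ν' → ν) (a : ν' → ℕ) : ν → ℕ := Function.extend σ a 0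

theorem xt_apply {σ : ν' → ν} (hσ : Function.Injective σ) (a : ν' → ℕ) (s : ν') :
    xt σ a (σ s) = a s := hσ.extend_apply a 0 s

theorem xt_zero {σ : ν' → ν} (a : ν' → ℕ) (s : ν) (h : ¬ ∃ x, σ x = s) : xt σ a s = 0 := by
  unfold xt
  rw [Function.extend_apply' _ _ _ h]
  rfl

theorem xt_comp {σ : ν' → ν} (hσ : Function.Injective σ) (a : ν → ℕ)
    (h : ∀ s, (¬ ∃ x, σ x = s) → a s = 0) : xt σ (fun x => a (σ x)) = a := by
  funext s
  by_cases hs : ∃ x, σ x = s
  · obtain ⟨x, rfl⟩ := hs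
    rw [xt_apply hσ]
  · rw [xt_zero _ _ hs, h s hs]

theorem sum_xt {σ : ν' → ν} (hσ : Function.Injective σ) (a : ν' → ℕ) :
    ∑ s, xt σ a s = ∑ x, a x := by
  symm
  refine Fintype.sum_of_injective σ hσ _ _ ?_ fun x => ?_
  · intro s hs
    exact xt_zero a s hs
  · rw [xt_apply hσ]

theorem tcr_xt {σ : ν' → ν} (hσ : Function.Injective σ) (p : ν → ℂ) (a b : ν' → ℕ) :
    tcr p (xt σ a) (xt σ b) = tcr (fun x => p (σ x)) a b := by
  unfold tcr
  symm
  refine Fintype.prod_of_injective σ hσ _ _ ?_ fun x => ?_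
  · intro s hs
    rw [xt_zero a s hs, xt_zero b s hs]
    simp
  · rw [xt_apply hσ, xt_apply hσ]

/-- The exponents of the trace, with the variables of the block left out. -/
theorem mem_xt {β : ν → ℕ} {β' : ν' → ℕ} {j d : ℕ} {σ : ν' → ν} (hσ : Function.Injective σ)
    (him : ∀ s, (∃ x, σ x = s) ↔ β s ≠ j) (hβ : ∀ x, ∀ i < j, β (σ x) = i ↔ β' x = i)
    (a : ν' → ℕ) : xt σ a ∈ A0 β j (Ex β d j) ↔ a ∈ Ex β' d j := by
  rw [mem_filter, mem_Ex, mem_Ex, sum_xt hσ]
  constructor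
  · rintro ⟨⟨h1, h2⟩, -⟩
    refine ⟨h1, fun i hi => ?_⟩
    obtain ⟨s, hs, h3⟩ := h2 i hi
    obtain ⟨x, rfl⟩ := (him s).2 (by omega)
    rw [xt_apply hσ] at h3
    exact ⟨x, (hβ x i hi).1 hs, h3⟩
  · rintro ⟨h1, h2⟩
    refine ⟨⟨h1, fun i hi => ?_⟩, fun s hs => ?_⟩
    · obtain ⟨x, hx, h3⟩ := h2 i hi
      refine ⟨σ x, (hβ x i hi).2 hx, ?_⟩
      rw [xt_apply hσ]
      exact h3
    · rw [mem_Bj] at hs
      refine xt_zero a s fun h => ?_
      exact (him s).1 h hs

/-- A trace exponent as an exponent in the remaining variables. -/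
noncomputable def xtE {β : ν → ℕ} {β' : ν' → ℕ} {j d : ℕ} {σ : ν' → ν}
    (hσ : Function.Injective σ) (him : ∀ s, (∃ x, σ x = s) ↔ β s ≠ j)
    (hβ : ∀ x, ∀ i < j, β (σ x) = i ↔ β' x = i) (a : {a // a ∈ Ex β' d j}) :
    {a // a ∈ A0 β j (Ex β d j)} := ⟨xt σ a.1, (mem_xt hσ him hβ a.1).2 a.2⟩

theorem TC_xt {β : ν → ℕ} {β' : ν' → ℕ} {j d : ℕ} {σ : ν' → ν}
    (hσ : Function.Injective σ) (him : ∀ s, (∃ x, σ x = s) ↔ β s ≠ j)
    (hβ : ∀ x, ∀ i < j, β (σ x) = i ↔ β' x = i)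
    (f : {a // a ∈ A0 β j (Ex β d j)} → ℂ) (p : ν → ℂ) (b : ν' → ℕ) :
    TC (fun e : {a // a ∈ Ex β' d j} => e.1) (fun a => f (xtE hσ him hβ a)) (fun x => p (σ x)) b =
      TC (fun e : {a // a ∈ A0 β j (Ex β d j)} => e.1) f p (xt σ b) := by
  unfold TC
  refine Fintype.sum_of_injective (xtE hσ him hβ) ?_ _ _ ?_ fun e => ?_
  · intro a a' h
    apply Subtype.ext
    funext x
    have h1 : xt σ a.1 = xt σ a'.1 := congrArg Subtype.val h
    have h2 := congrFun h1 (σ x)
    rwa [xt_apply hσ, xt_apply hσ] at h2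
  · intro e he
    exfalso
    apply he
    have h1 : xt σ (fun x => e.1 (σ x)) = e.1 := by
      refine xt_comp hσ e.1 fun s hs => ?_
      refine (mem_filter.1 e.2).2 s (mem_Bj.2 ?_)
      by_contra h2
      exact hs ((him s).2 h2)
    refine ⟨⟨fun x => e.1 (σ x), (mem_xt hσ him hβ _).1 (by rw [h1]; exact e.2)⟩, ?_⟩
    exact Subtype.ext h1
  · show f (xtE hσ him hβ e) * tcr (fun x => p (σ x)) e.1 b =
      f (xtE hσ him hβ e) * tcr p (xt σ e.1) (xt σ b)
    rw [tcr_xt hσ]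

theorem msk_xt {β : ν → ℕ} {β' : ν' → ℕ} {j : ℕ} {σ : ν' → ν}
    (hβ : ∀ x, ∀ i < j, β (σ x) = i ↔ β' x = i) (I : Finset ℕ) (hI : ∀ i ∈ I, i < j)
    (p : ν → ℂ) : (fun x => msk β I p (σ x)) = msk β' I fun x => p (σ x) := by
  funext x
  unfold msk
  have h : β (σ x) ∈ I ↔ β' x ∈ I := by
    constructor
    · intro h
      rwa [← (hβ x _ (hI _ h)).1 rfl] at h
    · intro h
      rwa [← (hβ x _ (hI _ h)).2 rfl] at h
  by_cases h1 : β (σ x) ∈ I
  · rw [if_pos h1, if_pos (h.1 h1)]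
  · rw [if_neg h1, if_neg fun h2 => h1 (h.2 h2)]

theorem Fat_xt {β : ν → ℕ} {β' : ν' → ℕ} {j d : ℕ} {σ : ν' → ν}
    (hσ : Function.Injective σ) (him : ∀ s, (∃ x, σ x = s) ↔ β s ≠ j)
    (hβ : ∀ x, ∀ i < j, β (σ x) = i ↔ β' x = i)
    (f : {a // a ∈ A0 β j (Ex β d j)} → ℂ) (p : ν → ℂ) (μ : ℕ)
    (h : Fat (fun e : {a // a ∈ A0 β j (Ex β d j)} => e.1) μ p f) :
    Fat (fun e : {a // a ∈ Ex β' d j} => e.1) μ (fun x => p (σ x))
      fun a => f (xtE hσ him hβ a) := by
  intro b hb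
  show TC (fun e : {a // a ∈ Ex β' d j} => e.1) (fun a => f (xtE hσ him hβ a))
    (fun x => p (σ x)) b = 0
  rw [TC_xt hσ him hβ]
  exact h (xt σ b) (by rw [sum_xt hσ]; exact hb)

theorem Sw_xt {β : ν → ℕ} {β' : ν' → ℕ} {j d : ℕ} {σ : ν' → ν}
    (hσ : Function.Injective σ) (him : ∀ s, (∃ x, σ x = s) ↔ β s ≠ j)
    (hβ : ∀ x, ∀ i < j, β (σ x) = i ↔ β' x = i)
    (f : {a // a ∈ A0 β j (Ex β d j)} → ℂ) (p v : ν → ℂ) (M N : ℕ) (B : Finset ν) (B' : Finset ν')
    (hB : ∀ x, σ x ∈ B → x ∈ B') (hBj : ∀ s ∈ B, β s ≠ j)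
    (h : Sw (fun e : {a // a ∈ A0 β j (Ex β d j)} => e.1) M N B p v f) :
    Sw (fun e : {a // a ∈ Ex β' d j} => e.1) M N B' (fun x => p (σ x)) (fun x => v (σ x))
      fun a => f (xtE hσ him hβ a) := by
  intro a ha h1 h2
  have h3 := h (xt σ a) (by
    intro s hs
    obtain ⟨x, rfl⟩ := (him s).2 (hBj s hs)
    rw [xt_apply hσ]
    exact ha x (hB x hs)) (by rw [sum_xt hσ]; exact h1) (by rw [sum_xt hσ]; exact h2)
  refine Eq.trans ?_ h3
  refine sum_of_injOn (xt σ) ?_ ?_ ?_ ?_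
  · intro b _ b' _ hbb
    funext x
    have h4 := congrFun hbb (σ x)
    rwa [xt_apply hσ, xt_apply hσ] at h4
  · intro b hb
    rw [mem_coe] at hb ⊢
    unfold bxd at hb ⊢
    rw [mem_filter, mem_bx] at hb ⊢
    refine ⟨fun s => ?_, ?_⟩
    · by_cases hs : ∃ x, σ x = s
      · obtain ⟨x, rfl⟩ := hs
        rw [xt_apply hσ]
        exact hb.1 x
      · rw [xt_zero _ _ hs]
        by_cases hN : N = 0
        · exfalso
          subst hN
          by_cases hne : Nonempty ν'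
          · exact absurd (hb.1 hne.some) (Nat.not_lt_zero _)
          · have h5 : ∑ x, a x = 0 := sum_eq_zero fun x _ => absurd ⟨x⟩ hne
            omega
        · omega
    · rw [sum_xt hσ]
      exact hb.2
  · intro b hb hb'
    show tcr v b (xt σ a) * TC (fun e : {a // a ∈ A0 β j (Ex β d j)} => e.1) f p b = 0
    by_cases h5 : ∀ s ∈ Bj β j, b s = 0
    · exfalso
      apply hb'
      have h6 : xt σ (fun x => b (σ x)) = b := by
        refine xt_comp hσ b fun s hs => h5 s (mem_Bj.2 ?_)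
        by_contra h7
        exact hs ((him s).2 h7)
      refine ⟨fun x => b (σ x), ?_, h6⟩
      rw [mem_coe]
      unfold bxd at hb ⊢
      rw [mem_filter, mem_bx] at hb ⊢
      refine ⟨fun x => hb.1 (σ x), ?_⟩
      rw [← sum_xt hσ, h6]
      exact hb.2
    · rw [TC_A0_zero β j _ _ p b h5, mul_zero]
  · intro b _
    show tcr (fun x => v (σ x)) b a * TC (fun e : {a // a ∈ Ex β' d j} => e.1)
      (fun a => f (xtE hσ him hβ a)) (fun x => p (σ x)) b =
      tcr v (xt σ b) (xt σ a) * TC (fun e : {a // a ∈ A0 β j (Ex β d j)} => e.1) f p (xt σ b)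
    rw [TC_xt hσ him hβ, tcr_xt hσ]

/-- The trace system in the remaining variables. -/
theorem gd_A0_le (M : ℕ) {β : ν → ℕ} {β' : ν' → ℕ} {j : ℕ} {σ : ν' → ν}
    (hσ : Function.Injective σ) (him : ∀ s, (∃ x, σ x = s) ↔ β s ≠ j)
    (hβ : ∀ x, ∀ i < j, β (σ x) = i ↔ β' x = i) {κ : Type} (m : κ → Kd)
    (hm : ∀ i, (m i).Ok M j) :
    (LSA M β (A0 β j (Ex β (2 * M - 1) j))).gd m ≤ (LS M β' j).gd m := by
  obtain ⟨q, hq⟩ := gd_attained (LS M β' j) m
  set Q : κ → ν ⊕ ν → ℂ := fun i => Sum.elim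
    (Function.extend σ (fun x => q i (Sum.inl x)) 0) (Function.extend σ (fun x => q i (Sum.inr x)) 0)
    with hQ
  refine (gd_le _ _ Q).trans ?_
  rw [← hq]
  have e1 : ∀ i, (fun x => Q i (Sum.inl (σ x))) = fun x => q i (Sum.inl x) := by
    intro i
    funext x
    show Function.extend σ (fun x => q i (Sum.inl x)) 0 (σ x) = q i (Sum.inl x)
    exact hσ.extend_apply _ _ x
  have e2 : ∀ i, (fun x => Q i (Sum.inr (σ x))) = fun x => q i (Sum.inr x) := by
    intro i
    funext x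
    show Function.extend σ (fun x => q i (Sum.inr x)) 0 (σ x) = q i (Sum.inr x)
    exact hσ.extend_apply _ _ x
  have key : ∀ (i : κ) (k : Kd) (f : {a // a ∈ A0 β j (Ex β (2 * M - 1) j)} → ℂ), k.Ok M j →
      SatK M β k (Q i) f → SatK M β' k (q i) fun a => f (xtE hσ him hβ a) := by
    intro i k f h2 h1
    rcases k with ⟨μ, I⟩ | ⟨i', I⟩
    · have h3 : ∀ x ∈ I, x < j := fun x hx => mem_range.1 (h2.2.2 hx)
      have h4 := Fat_xt hσ him hβ f _ μ h1
      rw [msk_xt hβ I h3, e1] at h4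
      exact h4
    · have h3 : ∀ x ∈ I, x < j := fun x hx => (mem_Ico.1 (h2.2 hx)).2
      have h3' : ∀ x ∈ insert i' I, x < j := by
        intro x hx
        rcases mem_insert.1 hx with h | h
        · rw [h]
          exact h2.1
        · exact h3 x h
      have h4 := Fat_xt hσ him hβ f _ M h1.1
      have h5 := Sw_xt hσ him hβ f _ _ M (2 * M) _ (univ.filter fun s => β' s = i') (by
        intro x hx
        rw [mem_filter] at hx ⊢
        exact ⟨mem_univ x, (hβ x i' h2.1).1 hx.2⟩) (by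
        intro s hs
        rw [mem_filter] at hs
        have := h2.1
        omega) h1.2
      rw [msk_xt hβ _ h3', e1] at h4
      rw [msk_xt hβ _ h3', msk_xt hβ _ h3, e1, e2] at h5
      exact ⟨h4, h5⟩
  let L : (LSA M β (A0 β j (Ex β (2 * M - 1) j))).V m Q →ₗ[ℂ] (LS M β' j).V m q :=
    { toFun := fun f => ⟨fun a => f.1 (xtE hσ him hβ a), by
        obtain ⟨f, hf⟩ := f
        rw [mem_LSA] at hf
        rw [mem_LSA]
        intro i
        exact key i (m i) f (hm i) (hf i)⟩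
      map_add' := fun _ _ => rfl
      map_smul' := fun _ _ => rfl }
  refine LinearMap.finrank_le_finrank_of_injective (f := L) ?_
  intro f f' hff
  apply Subtype.ext
  funext e
  have h1 : xt σ (fun x => e.1 (σ x)) = e.1 := by
    refine xt_comp hσ e.1 fun s hs => ?_
    refine (mem_filter.1 e.2).2 s (mem_Bj.2 ?_)
    by_contra h2
    exact hs ((him s).2 h2)
  have h2 : (fun x => e.1 (σ x)) ∈ Ex β' (2 * M - 1) j :=
    (mem_xt hσ him hβ _).1 (by rw [h1]; exact e.2)
  have h3 : f.1 (xtE hσ him hβ ⟨fun x => e.1 (σ x), h2⟩) =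
      f'.1 (xtE hσ him hβ ⟨fun x => e.1 (σ x), h2⟩) :=
    congrFun (congrArg Subtype.val hff) ⟨fun x => e.1 (σ x), h2⟩
  have h4 : xtE hσ him hβ ⟨fun x => e.1 (σ x), h2⟩ = e := Subtype.ext h1
  rwa [h4] at h3

theorem A1_Ex (β : ν → ℕ) (d j : ℕ) : A1 β j (Ex β d j) = Ex β d (j + 1) := by
  ext a
  rw [mem_filter, mem_Ex, mem_Ex]
  constructor
  · rintro ⟨⟨h1, h2⟩, h3⟩
    refine ⟨h1, fun i hi => ?_⟩
    rcases Nat.lt_or_ge i j with h | h
    · exact h2 i h
    · have h4 : i = j := by omega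
      subst h4
      push Not at h3
      obtain ⟨s, hs, h3⟩ := h3
      exact ⟨s, mem_Bj.1 hs, h3⟩
  · rintro ⟨h1, h2⟩
    refine ⟨⟨h1, fun i hi => h2 i (by omega)⟩, fun h => ?_⟩
    obtain ⟨s, hs, h3⟩ := h2 j (by omega)
    exact h3 (h s (mem_Bj.2 hs))

end

/-- The variables off the block `j`. -/
def sg (c j n : ℕ) (hn : c ≤ n) (s : Fin (n - c)) : Fin n :=
  if h : s.1 < j * c then ⟨s.1, by omega⟩ else ⟨s.1 + c, by omega⟩

theorem sg_val (c j n : ℕ) (hn : c ≤ n) (s : Fin (n - c)) :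
    (sg c j n hn s).1 = if s.1 < j * c then s.1 else s.1 + c := by
  unfold sg
  split_ifs <;> rfl

/-- **The differential Horace step** for multisets of kinds. -/
theorem gM_dh (M c j n : ℕ) (hM : 1 ≤ M) (hc : 1 ≤ c) (hn : (j + 1) * c ≤ n)
    (sL sO : Multiset Kd) (y a : ℕ) (hL : ∀ τ ∈ sL, τ.Ok M j)
    (h0 : gM (LS M (blk c (n - c)) j) (sL + Multiset.replicate (y + a) Kd.sm) = 0) :
    gM (LS M (blk c n) j) (sL + sO + Multiset.replicate y (Kd.ord M ∅) +
      Multiset.replicate a Kd.sm) ≤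
      gM (LS M (blk c n) (j + 1)) (sL.map (Kd.add j) + sO + Multiset.replicate y (Kd.sw j ∅)) := by
  classical
  have hcn : c ≤ n := by nlinarith
  obtain ⟨mL, hmL, -⟩ := exists_conf (LS M (blk c n) j) sL
  obtain ⟨mO, hmO, -⟩ := exists_conf (LS M (blk c n) j) sO
  have hval := sg_val c j n hcn
  have hjc : (j + 1) * c = j * c + c := by ring
  have hinj : Function.Injective (sg c j n hcn) := by
    intro s s' h
    have h1 := congrArg Fin.val h
    rw [hval, hval] at h1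
    apply Fin.ext
    split_ifs at h1 <;> omega
  have him : ∀ s : Fin n, (∃ x, sg c j n hcn x = s) ↔ blk c n s ≠ j := by
    intro s
    have hdiv : blk c n s = j ↔ j * c ≤ s.1 ∧ s.1 < (j + 1) * c := by
      show s.1 / c = j ↔ _
      rw [Nat.div_eq_iff (by omega)]
      constructor
      · rintro ⟨h1, h2⟩
        constructor
        · exact h1
        · rw [hjc]
          omega
      · rintro ⟨h1, h2⟩
        rw [hjc] at h2
        exact ⟨h1, by omega⟩
    constructor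
    · rintro ⟨x, rfl⟩ h
      have h1 := hdiv.1 h
      rw [hval] at h1
      split_ifs at h1 <;> omega
    · intro h
      rcases Nat.lt_or_ge s.1 (j * c) with h1 | h1
      · refine ⟨⟨s.1, by omega⟩, ?_⟩
        apply Fin.ext
        rw [hval, if_pos h1]
      · have h2 : (j + 1) * c ≤ s.1 := by
          by_contra h3
          exact h (hdiv.2 ⟨h1, by omega⟩)
        have h3 := s.2
        refine ⟨⟨s.1 - c, by omega⟩, ?_⟩
        apply Fin.ext
        rw [hval, if_neg (by simp only; omega)]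
        simp only
        omega
  have hβ : ∀ x, ∀ i < j, blk c n (sg c j n hcn x) = i ↔ blk c (n - c) x = i := by
    intro x i hi
    show (sg c j n hcn x).1 / c = i ↔ x.1 / c = i
    rw [hval]
    split_ifs with h
    · exact Iff.rfl
    · have h1 : j ≤ x.1 / c := (Nat.le_div_iff_mul_le (by omega)).2 (by omega)
      have h2 : (x.1 + c) / c = x.1 / c + 1 := Nat.add_div_right _ (by omega)
      omega
  have hLm : ∀ i, (mL i).Ok M j := by
    intro i
    refine hL _ ?_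
    rw [← hmL]
    exact Multiset.mem_map_of_mem _ (mem_univ i)
  have h1 : (LSA M (blk c n) (A0 (blk c n) j (Ex (blk c n) (2 * M - 1) j))).gd
      (Sum.elim mL fun _ : Fin y ⊕ Fin a => Kd.sm) = 0 := by
    have h2 := gd_A0_le M hinj him hβ (Sum.elim mL fun _ : Fin y ⊕ Fin a => Kd.sm) (by
      rintro (i | i)
      · exact hLm i
      · exact ⟨le_rfl, hM, empty_subset _⟩)
    have h3 : (LS M (blk c (n - c)) j).gd (Sum.elim mL fun _ : Fin y ⊕ Fin a => Kd.sm) = 0 := by
      rw [gd_eq_gM, map_elim, hmL, ST.map_const, Fintype.card_sum, Fintype.card_fin, Fintype.card_fin]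
      exact h0
    omega
  have h2 := dh_gd M hM (blk c n) j (Ex (blk c n) (2 * M - 1) j) (by
    intro e he s
    have h3 := (mem_Ex.1 he).1
    have h4 : e s ≤ ∑ s, e s := single_le_sum (f := e) (fun _ _ => Nat.zero_le _) (mem_univ s)
    omega) mL mO y a h1
  rw [A1_Ex] at h2
  rw [gd_eq_gM, gd_eq_gM, map_elim, map_elim, map_elim, map_elim, map_elim, ST.map_const, ST.map_const,
    ST.map_const, hmL, hmO, Fintype.card_fin, Fintype.card_fin] at h2
  have h3 : (univ : Finset (Fin sL.toList.length)).val.map (fun x => (mL x).add j) =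
      sL.map (Kd.add j) := by
    have h4 := congrArg (Multiset.map (Kd.add j)) hmL
    rw [Multiset.map_map] at h4
    exact h4
  rw [h3] at h2
  have e1 : sL + sO + Multiset.replicate y (Kd.ord M ∅) + Multiset.replicate a Kd.sm =
      sL + (sO + (Multiset.replicate y (Kd.ord M ∅) + Multiset.replicate a Kd.sm)) := by
    simp only [add_assoc]
  have e2 : sL.map (Kd.add j) + sO + Multiset.replicate y (Kd.sw j ∅) =
      sL.map (Kd.add j) + (sO + Multiset.replicate y (Kd.sw j ∅)) := by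
    simp only [add_assoc]
  rw [e1, e2]
  exact h2

end Pool.Agent.V7
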