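import Pool.Agent.V7.ST.Step
import Pool.Agent.V7.DHm
import Pool.Agent.V7.Num.Ms

/-!
# V7: exactness on the level `j` from exactness on the level `j + 1`
-/

set_option autoImplicit false

namespace Pool.Agent.V7

open Finset Pool.Agent.H51.TB Pool.Agent.V7.ST

/-- STEP -/
theorem step (M c j : ℕ) (hj : j + 2 ≤ M) (hc : 2 * (2 * M - 1).choose M * M < c)
    (hO : OJ M c j) (hP : PROP M c (j + 1)) : PROP M c j :=
  step_of M c j hj (by omega)
    (fun n sL sO y a hn hL h0 => gM_dh M c j n (by omega) (by omega) (by omega) sL sO y a hL h0)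
    (num_ms M c j hj hc) hO hP

end Pool.Agent.V7
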