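import Pool.Agent.V7.Defs
import Pool.Agent.H54.V7.Red

/-!
# V7, block DH: the differential Horace step for configurations of kinds
-/

set_option autoImplicit false
set_option linter.unusedSectionVars false

namespace Pool.Agent.V7

open Finset MvPolynomial Pool.Agent.H51.TB Pool.Agent.H54.V7
open Pool.Agent.H18.Ex (tcr)

section

variable {ν : Type} [Fintype ν] [DecidableEq ν]

/-- The block `j`. -/
abbrev Bj (β : ν → ℕ) (j : ℕ) : Finset ν := univ.filter fun s => β s = j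

/-- The exponents of `A` off the block `j`. -/
abbrev A0 (β : ν → ℕ) (j : ℕ) (A : Finset (ν → ℕ)) : Finset (ν → ℕ) :=
  A.filter fun a => ∀ s ∈ Bj β j, a s = 0

/-- The exponents of `A` which meet the block `j`. -/
abbrev A1 (β : ν → ℕ) (j : ℕ) (A : Finset (ν → ℕ)) : Finset (ν → ℕ) :=
  A.filter fun a => ¬ ∀ s ∈ Bj β j, a s = 0

/-- The position with both vectors on the subspace of the block `j`. -/
def mq (β : ν → ℕ) (j : ℕ) (q : ν ⊕ ν → ℂ) : ν ⊕ ν → ℂ :=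
  Sum.elim (msk β {j} fun s => q (Sum.inl s)) (msk β {j} fun s => q (Sum.inr s))

/-- The restriction of a function to a smaller set of exponents. -/
def rs {A A' : Finset (ν → ℕ)} (h : A' ⊆ A) (f : {a // a ∈ A} → ℂ) : {a // a ∈ A'} → ℂ :=
  fun e => f ⟨e.1, h e.2⟩

/-- Taylor coefficients as sums over a finite set. -/
theorem sum_coe {A : Finset (ν → ℕ)} (f : {a // a ∈ A} → ℂ) (g : (ν → ℕ) → ℂ) :
    ∑ e : {a // a ∈ A}, f e * g e.1 =
      ∑ a ∈ A, (if h : a ∈ A then f ⟨a, h⟩ else 0) * g a := by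
  rw [← sum_coe_sort A fun a => (if h : a ∈ A then f ⟨a, h⟩ else 0) * g a]
  refine sum_congr rfl fun e _ => ?_
  rw [dif_pos e.2]

theorem sum_rs {A A' : Finset (ν → ℕ)} (h : A' ⊆ A) (f : {a // a ∈ A} → ℂ) (g : (ν → ℕ) → ℂ)
    (h0 : ∀ e : {a // a ∈ A}, e.1 ∉ A' → f e * g e.1 = 0) :
    ∑ e : {a // a ∈ A'}, rs h f e * g e.1 = ∑ e : {a // a ∈ A}, f e * g e.1 := by
  rw [sum_coe, sum_coe, ← sum_subset h]
  · refine sum_congr rfl fun a ha => ?_
    rw [dif_pos ha, dif_pos (h ha)]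
    rfl
  · intro a ha ha'
    rw [dif_pos ha]
    exact h0 ⟨a, ha⟩ ha'

/-- The Taylor coefficients on the subspace. -/
theorem TC_trace (β : ν → ℕ) (j : ℕ) (A : Finset (ν → ℕ)) (f : {a // a ∈ A} → ℂ)
    (p : ν → ℂ) (hp : ∀ s ∈ Bj β j, p s = 0) (b : ν → ℕ) (hb : ∀ s ∈ Bj β j, b s = 0) :
    TC (fun e : {a // a ∈ A0 β j A} => e.1) (rs (filter_subset _ A) f) p b =
      TC (fun e : {a // a ∈ A} => e.1) f p b := by
  unfold TC
  refine sum_rs (filter_subset _ A) f (fun a => tcr p a b) fun e he => ?_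
  rw [tcr_off (Bj β j) p hp e.1 b hb, mul_zero]
  intro h
  exact he (mem_filter.2 ⟨e.2, h⟩)

/-- The Taylor coefficients on the subspace do not depend on the coordinates of the block `j`. -/
theorem TC_A0 (β : ν → ℕ) (j : ℕ) (A : Finset (ν → ℕ)) (f : {a // a ∈ A0 β j A} → ℂ)
    (p p' : ν → ℂ) (hp : ∀ s, s ∉ Bj β j → p s = p' s) (b : ν → ℕ) :
    TC (fun e : {a // a ∈ A0 β j A} => e.1) f p b =
      TC (fun e : {a // a ∈ A0 β j A} => e.1) f p' b := by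
  unfold TC
  refine sum_congr rfl fun e _ => ?_
  have he := (mem_filter.1 e.2).2
  congr 1
  unfold tcr
  refine prod_congr rfl fun s _ => ?_
  show (((e.1 s).choose (b s) : ℕ) : ℂ) * p s ^ (e.1 s - b s) =
    (((e.1 s).choose (b s) : ℕ) : ℂ) * p' s ^ (e.1 s - b s)
  by_cases hs : s ∈ Bj β j
  · rw [he s hs, Nat.zero_sub, pow_zero, pow_zero]
  · rw [hp s hs]

theorem TC_A0_zero (β : ν → ℕ) (j : ℕ) (A : Finset (ν → ℕ)) (f : {a // a ∈ A0 β j A} → ℂ)
    (p : ν → ℂ) (b : ν → ℕ) (hb : ¬ ∀ s ∈ Bj β j, b s = 0) :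
    TC (fun e : {a // a ∈ A0 β j A} => e.1) f p b = 0 := by
  push Not at hb
  obtain ⟨s, hs, hb⟩ := hb
  unfold TC
  refine sum_eq_zero fun e _ => ?_
  have he := (mem_filter.1 e.2).2
  rw [tcr_eq_zero p e.1 b, mul_zero]
  intro h
  have h1 := h s
  have h2 := he s hs
  exact hb (Nat.eq_zero_of_le_zero (h2 ▸ h1))

theorem Fat_trace (β : ν → ℕ) (j : ℕ) (A : Finset (ν → ℕ)) (M : ℕ) (f : {a // a ∈ A} → ℂ)
    (p p' : ν → ℂ) (hp : ∀ s ∈ Bj β j, p s = 0) (hpp : ∀ s, s ∉ Bj β j → p' s = p s)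
    (h : Fat (fun e : {a // a ∈ A} => e.1) M p f) :
    Fat (fun e : {a // a ∈ A0 β j A} => e.1) M p' (rs (filter_subset _ A) f) := by
  intro b hb
  show TC (fun e : {a // a ∈ A0 β j A} => e.1) (rs (filter_subset _ A) f) p' b = 0
  by_cases h1 : ∀ s ∈ Bj β j, b s = 0
  · rw [TC_A0 β j A _ p' p hpp b, TC_trace β j A f p hp b h1]
    exact h b hb
  · exact TC_A0_zero β j A _ p' b h1

theorem Sw_trace (β : ν → ℕ) (j : ℕ) (A : Finset (ν → ℕ)) (M N : ℕ) (B : Finset ν)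
    (f : {a // a ∈ A} → ℂ) (p p' v v' : ν → ℂ) (hp : ∀ s ∈ Bj β j, p s = 0)
    (hpp : ∀ s, s ∉ Bj β j → p' s = p s) (hv : ∀ s ∈ Bj β j, v s = 0)
    (hvv : ∀ s, s ∉ Bj β j → v' s = v s)
    (h : Sw (fun e : {a // a ∈ A} => e.1) M N B p v f) :
    Sw (fun e : {a // a ∈ A0 β j A} => e.1) M N B p' v' (rs (filter_subset _ A) f) := by
  intro a ha h1 h2
  show ∑ b ∈ bxd ν N M, tcr v' b a *
    TC (fun e : {a // a ∈ A0 β j A} => e.1) (rs (filter_subset _ A) f) p' b = 0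
  by_cases h3 : ∀ s ∈ Bj β j, a s = 0
  · have h4 := h a ha h1 h2
    refine Eq.trans ?_ h4
    refine sum_congr rfl fun b _ => ?_
    show _ = tcr v b a * TC (fun e : {a // a ∈ A} => e.1) f p b
    by_cases h5 : ∀ s ∈ Bj β j, b s = 0
    · rw [TC_A0 β j A _ p' p hpp b, TC_trace β j A f p hp b h5]
      congr 1
      unfold tcr
      refine prod_congr rfl fun s _ => ?_
      by_cases hs : s ∈ Bj β j
      · rw [h5 s hs, Nat.zero_sub, pow_zero, pow_zero]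
      · rw [hvv s hs]
    · rw [TC_A0_zero β j A _ p' b h5, mul_zero, tcr_off (Bj β j) v hv b a h3 h5, zero_mul]
  · refine sum_eq_zero fun b _ => ?_
    by_cases h5 : ∀ s ∈ Bj β j, b s = 0
    · rw [tcr_eq_zero v' b a, zero_mul]
      intro h6
      apply h3
      intro s hs
      exact Nat.eq_zero_of_le_zero (h5 s hs ▸ h6 s)
    · rw [TC_A0_zero β j A _ p' b h5, mul_zero]

theorem TC_resid (β : ν → ℕ) (j : ℕ) (A : Finset (ν → ℕ)) (f : {a // a ∈ A} → ℂ)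
    (hf : ∀ e : {a // a ∈ A}, (∀ s ∈ Bj β j, e.1 s = 0) → f e = 0) (p : ν → ℂ) (b : ν → ℕ) :
    TC (fun e : {a // a ∈ A1 β j A} => e.1) (rs (filter_subset _ A) f) p b =
      TC (fun e : {a // a ∈ A} => e.1) f p b := by
  unfold TC
  refine sum_rs (filter_subset _ A) f (fun a => tcr p a b) fun e he => ?_
  rw [hf e, zero_mul]
  by_contra h
  exact he (mem_filter.2 ⟨e.2, h⟩)

theorem Fat_resid (β : ν → ℕ) (j : ℕ) (A : Finset (ν → ℕ)) (M : ℕ) (f : {a // a ∈ A} → ℂ)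
    (hf : ∀ e : {a // a ∈ A}, (∀ s ∈ Bj β j, e.1 s = 0) → f e = 0) (p : ν → ℂ)
    (h : Fat (fun e : {a // a ∈ A} => e.1) M p f) :
    Fat (fun e : {a // a ∈ A1 β j A} => e.1) M p (rs (filter_subset _ A) f) := by
  intro b hb
  show TC (fun e : {a // a ∈ A1 β j A} => e.1) (rs (filter_subset _ A) f) p b = 0
  rw [TC_resid β j A f hf p b]
  exact h b hb

theorem Sw_resid (β : ν → ℕ) (j : ℕ) (A : Finset (ν → ℕ)) (M N : ℕ) (B : Finset ν)
    (f : {a // a ∈ A} → ℂ)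
    (hf : ∀ e : {a // a ∈ A}, (∀ s ∈ Bj β j, e.1 s = 0) → f e = 0) (p v : ν → ℂ)
    (h : Sw (fun e : {a // a ∈ A} => e.1) M N B p v f) :
    Sw (fun e : {a // a ∈ A1 β j A} => e.1) M N B p v (rs (filter_subset _ A) f) := by
  intro a ha h1 h2
  refine Eq.trans ?_ (h a ha h1 h2)
  refine sum_congr rfl fun b _ => ?_
  show tcr v b a * TC (fun e : {a // a ∈ A1 β j A} => e.1) (rs (filter_subset _ A) f) p b = _
  rw [TC_resid β j A f hf p b]
  rfl

end

end Pool.Agent.V7
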